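import Pool.Agent.Lib.MP_da4765_co.Defs

/-!
# Basic facts on the Mycielskian and the distinguishing index
-/

namespace Pool.Agent.Lib.MP_da4765_co

variable {V : Type*}

@[simp] lemma adj_vv (G : SimpleGraph V) (x y : V) :
    (mycielskian G).Adj (.v x) (.v y) ↔ G.Adj x y := Iff.rfl
@[simp] lemma adj_uv (G : SimpleGraph V) (x y : V) :
    (mycielskian G).Adj (.u x) (.v y) ↔ G.Adj x y := Iff.rfl
@[simp] lemma adj_vu (G : SimpleGraph V) (x y : V) :
    (mycielskian G).Adj (.v x) (.u y) ↔ G.Adj x y := Iff.rfl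
@[simp] lemma adj_uu (G : SimpleGraph V) (x y : V) :
    ¬ (mycielskian G).Adj (.u x) (.u y) := fun h => h
@[simp] lemma adj_wu (G : SimpleGraph V) (x : V) :
    (mycielskian G).Adj .w (.u x) := trivial
@[simp] lemma adj_uw (G : SimpleGraph V) (x : V) :
    (mycielskian G).Adj (.u x) .w := trivial
@[simp] lemma adj_wv (G : SimpleGraph V) (x : V) :
    ¬ (mycielskian G).Adj .w (.v x) := fun h => h
@[simp] lemma adj_vw (G : SimpleGraph V) (x : V) :
    ¬ (mycielskian G).Adj (.v x) .w := fun h => h
@[simp] lemma adj_ww (G : SimpleGraph V) :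
    ¬ (mycielskian G).Adj (.w : MVert V) .w := fun h => h

/-- The vertex type of the Mycielskian as an option type. -/
def mvertEquiv (V : Type*) : MVert V ≃ Option (V ⊕ V) where
  toFun p := match p with
    | .v x => some (Sum.inl x)
    | .u x => some (Sum.inr x)
    | .w => none
  invFun q := match q with
    | some (Sum.inl x) => .v x
    | some (Sum.inr x) => .u x
    | none => .w
  left_inv p := by cases p <;> rfl
  right_inv q := by rcases q with _ | (x | x) <;> rfl

noncomputable instance [Fintype V] : Fintype (MVert V) :=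
  Fintype.ofEquiv _ (mvertEquiv V).symm

/-- A colouring of unordered pairs that is distinguishing on the edges. -/
def IsDistS (G : SimpleGraph V) {d : ℕ} (c : Sym2 V → Fin d) : Prop :=
  ∀ φ : G ≃g G, (∀ x y, G.Adj x y → c s(φ x, φ y) = c s(x, y)) → ∀ x : V, φ x = x

lemma hasDist_of_sym {G : SimpleGraph V} {d : ℕ} (c : Sym2 V → Fin d) (h : IsDistS G c) :
    HasDist G d := by
  refine ⟨fun e => c e.1, fun φ hφ => h φ fun x y hxy => ?_⟩
  have := hφ ⟨s(x, y), hxy⟩
  simpa [SimpleGraph.Iso.mapEdgeSet, SimpleGraph.Hom.mapEdgeSet] using this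

lemma sym_of_hasDist {G : SimpleGraph V} {d : ℕ} (hd : 0 < d) (h : HasDist G d) :
    ∃ c : Sym2 V → Fin d, IsDistS G c := by
  classical
  obtain ⟨c, hc⟩ := h
  refine ⟨fun e => if he : e ∈ G.edgeSet then c ⟨e, he⟩ else ⟨0, hd⟩, fun φ hφ => hc φ ?_⟩
  rintro ⟨e, he⟩
  induction e using Sym2.ind with
  | _ x y =>
    have hxy : G.Adj x y := he
    have h1 := hφ x y hxy
    have h2 : G.Adj (φ x) (φ y) := φ.map_adj_iff.2 hxy
    simp only [SimpleGraph.mem_edgeSet, h2, hxy, dite_true] at h1
    exact h1

/-- More colours do not hurt. -/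
lemma HasDist.mono {G : SimpleGraph V} {d e : ℕ} (hde : d ≤ e) (h : HasDist G d) :
    HasDist G e := by
  obtain ⟨c, hc⟩ := h
  refine ⟨fun x => Fin.castLE hde (c x), fun φ hφ => hc φ fun x => ?_⟩
  exact Fin.castLE_injective hde (hφ x)

lemma distIndex_le {G : SimpleGraph V} {d : ℕ} (hd : 0 < d) (h : HasDist G d) :
    distIndex G ≤ d := Nat.sInf_le ⟨hd, h⟩

/-- In a connected graph with at least three vertices some neighbourhood has a vertex apart from
any given edge. -/
lemma exists_third [Fintype V] {G : SimpleGraph V} (hG : G.Connected)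
    (hV : 3 ≤ Fintype.card V) {x y : V} (hxy : G.Adj x y) :
    ∃ z, z ≠ x ∧ z ≠ y ∧ (G.Adj x z ∨ G.Adj y z) := by
  classical
  by_contra hcon
  push Not at hcon
  have key : ∀ z : V, z = x ∨ z = y := by
    intro z
    obtain ⟨p⟩ := hG.preconnected x z
    have : ∀ (a b : V) (p : G.Walk a b), (a = x ∨ a = y) → (b = x ∨ b = y) := by
      intro a b p
      induction p with
      | nil => exact id
      | @cons a c b h p ih =>
        intro ha
        apply ih
        by_contra hc
        push Not at hc
        rcases ha with rfl | rfl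
        · exact (hcon c hc.1 hc.2).1 h
        · exact (hcon c hc.1 hc.2).2 h
    exact this x z p (Or.inl rfl)
  have h2 : Fintype.card V ≤ ({x, y} : Finset V).card := by
    rw [← Finset.card_univ]
    apply Finset.card_le_card
    intro z _
    rcases key z with rfl | rfl <;> simp
  have h3 : ({x, y} : Finset V).card ≤ 2 := Finset.card_le_two
  omega

/-- Every vertex of a connected graph with at least three vertices has a neighbour. -/
lemma exists_nbr [Fintype V] {G : SimpleGraph V} (hG : G.Connected)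
    (hV : 3 ≤ Fintype.card V) (x : V) : ∃ y, G.Adj x y := by
  classical
  have : Nontrivial V := Fintype.one_lt_card_iff_nontrivial.1 (by omega)
  exact hG.preconnected.exists_adj_of_nontrivial x

/-- The distinguishing index of a connected graph with at least three vertices is defined. -/
lemma exists_hasDist [Fintype V] {G : SimpleGraph V} (hG : G.Connected)
    (hV : 3 ≤ Fintype.card V) : ∃ d : ℕ, 0 < d ∧ HasDist G d := by
  classical
  have hne : Nonempty (Sym2 V) := by
    obtain ⟨x⟩ := hG.nonempty
    exact ⟨s(x, x)⟩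
  refine ⟨Fintype.card (Sym2 V), Fintype.card_pos, ?_⟩
  refine hasDist_of_sym (Fintype.equivFin (Sym2 V)) ?_
  intro φ hφ x
  have h1 : ∀ x y, G.Adj x y → s(φ x, φ y) = s(x, y) := fun x y hxy =>
    (Fintype.equivFin (Sym2 V)).injective (hφ x y hxy)
  by_contra hx
  obtain ⟨y, hxy⟩ := exists_nbr hG hV x
  have h2 := h1 x y hxy
  rw [Sym2.eq_iff] at h2
  rcases h2 with h2 | h2
  · exact hx h2.1
  · obtain ⟨z, hzx, hzy, hz⟩ := exists_third hG hV hxy
    rcases hz with hz | hz
    · have h3 := h1 x z hz
      rw [Sym2.eq_iff] at h3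
      rcases h3 with h3 | h3
      · exact hx h3.1
      · exact hzy (h3.1.symm.trans h2.1)
    · have h3 := h1 y z hz
      rw [Sym2.eq_iff] at h3
      rcases h3 with h3 | h3
      · exact hx (by rw [h2.1, ← h3.1, h2.2])
      · exact hzx (h3.1.symm.trans h2.2)

lemma distIndex_spec [Fintype V] {G : SimpleGraph V} (hG : G.Connected)
    (hV : 3 ≤ Fintype.card V) : 0 < distIndex G ∧ HasDist G (distIndex G) :=
  Nat.sInf_mem (s := {d : ℕ | 0 < d ∧ HasDist G d}) (exists_hasDist hG hV)

lemma hasDist_of_le [Fintype V] {G : SimpleGraph V} (hG : G.Connected)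
    (hV : 3 ≤ Fintype.card V) {d : ℕ} (h : distIndex G ≤ d) : HasDist G d :=
  (distIndex_spec hG hV).2.mono h

end Pool.Agent.Lib.MP_da4765_co
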