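import Pool.Agent.Lib.MP_da4765_co.Struct

/-!
# Colourings of the Mycielskian
-/

namespace Pool.Agent.Lib.MP_da4765_co

variable {V : Type*}

lemma Twin.symm {G : SimpleGraph V} {x y : V} (h : Twin G x y) : Twin G y x :=
  fun z => (h z).symm

lemma Twin.trans {G : SimpleGraph V} {x y z : V} (h : Twin G x y) (h' : Twin G y z) :
    Twin G x z := fun t => (h t).trans (h' t)

lemma Twin.refl (G : SimpleGraph V) (x : V) : Twin G x x := fun _ => Iff.rfl

lemma Twin.not_adj {G : SimpleGraph V} {x y : V} (h : Twin G x y) : ¬ G.Adj x y :=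
  fun h' => G.irrefl ((h y).1 h')

/-- The automorphism that exchanges two twins. -/
def swapIso [DecidableEq V] {G : SimpleGraph V} {x y : V} (h : Twin G x y) : G ≃g G where
  toEquiv := Equiv.swap x y
  map_rel_iff' := by
    have h1 : ∀ a b, G.Adj a b → G.Adj (Equiv.swap x y a) (Equiv.swap x y b) := by
      intro a b hab
      have hxy := h.not_adj
      by_cases hax : a = x
      · subst hax
        have hb1 : b ≠ a := hab.ne'
        have hb2 : b ≠ y := fun e => hxy (e ▸ hab)
        rw [Equiv.swap_apply_left, Equiv.swap_apply_of_ne_of_ne hb1 hb2]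
        exact (h b).1 hab
      by_cases hay : a = y
      · subst hay
        have hb1 : b ≠ a := hab.ne'
        have hb2 : b ≠ x := fun e => hxy (e ▸ hab.symm)
        rw [Equiv.swap_apply_right, Equiv.swap_apply_of_ne_of_ne hb2 hb1]
        exact (h b).2 hab
      rw [Equiv.swap_apply_of_ne_of_ne hax hay]
      by_cases hbx : b = x
      · subst hbx
        rw [Equiv.swap_apply_left]
        exact ((h a).1 hab.symm).symm
      by_cases hby : b = y
      · subst hby
        rw [Equiv.swap_apply_right]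
        exact ((h a).2 hab.symm).symm
      rwa [Equiv.swap_apply_of_ne_of_ne hbx hby]
    intro a b
    refine ⟨fun hab => ?_, h1 a b⟩
    have := h1 _ _ hab
    simpa using this

/-- Two twins see different colours in a distinguishing colouring. -/
lemma IsDistS.twin_eq {G : SimpleGraph V} {d : ℕ} {c : Sym2 V → Fin d} (hc : IsDistS G c)
    {x y : V} (h : Twin G x y) (hxy : ∀ z, G.Adj x z → c s(x, z) = c s(y, z)) : x = y := by
  classical
  have h1 : ∀ a b, G.Adj a b → c s(swapIso h a, swapIso h b) = c s(a, b) := by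
    intro a b hab
    have hnadj := h.not_adj
    change c s(Equiv.swap x y a, Equiv.swap x y b) = c s(a, b)
    by_cases hax : a = x
    · subst hax
      have hb1 : b ≠ a := hab.ne'
      have hb2 : b ≠ y := fun e => hnadj (e ▸ hab)
      rw [Equiv.swap_apply_left, Equiv.swap_apply_of_ne_of_ne hb1 hb2]
      exact (hxy b hab).symm
    by_cases hay : a = y
    · subst hay
      have hb1 : b ≠ a := hab.ne'
      have hb2 : b ≠ x := fun e => hnadj (e ▸ hab.symm)
      rw [Equiv.swap_apply_right, Equiv.swap_apply_of_ne_of_ne hb2 hb1]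
      exact hxy b ((h b).2 hab)
    rw [Equiv.swap_apply_of_ne_of_ne hax hay]
    by_cases hbx : b = x
    · subst hbx
      rw [Equiv.swap_apply_left, Sym2.eq_swap, Sym2.eq_swap (a := a)]
      exact (hxy a hab.symm).symm
    by_cases hby : b = y
    · subst hby
      rw [Equiv.swap_apply_right, Sym2.eq_swap, Sym2.eq_swap (a := a)]
      exact hxy a ((h a).2 hab.symm)
    rw [Equiv.swap_apply_of_ne_of_ne hbx hby]
  have h2 := hc (swapIso h) h1 x
  have h3 : swapIso h x = y := Equiv.swap_apply_left x y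
  rw [h3] at h2
  exact h2.symm

section data

variable {G : SimpleGraph V} {α : G ≃g G} {β : V ≃ V}
  (hαβ : ∀ x y, G.Adj x y ↔ G.Adj (β x) (α y))

include hαβ in
lemma twin_of_data (x : V) : Twin G (β x) (α x) := by
  intro z
  obtain ⟨z, rfl⟩ := α.surjective z
  rw [← hαβ, α.map_adj_iff]

lemma hasTwin_map (α : G ≃g G) {x : V} (h : HasTwin G x) : HasTwin G (α x) := by
  obtain ⟨y, hy, hxy⟩ := h
  refine ⟨α y, fun e => hy (α.injective e), fun z => ?_⟩
  obtain ⟨z, rfl⟩ := α.surjective z
  rw [α.map_adj_iff, α.map_adj_iff]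
  exact hxy z

lemma hasTwin_map_iff (α : G ≃g G) {x : V} : HasTwin G (α x) ↔ HasTwin G x := by
  refine ⟨fun h => ?_, hasTwin_map α⟩
  have := hasTwin_map α.symm h
  rwa [RelIso.symm_apply_apply] at this

include hαβ in
lemma beta_eq {x : V} (hx : ¬ HasTwin G x) : β x = α x := by
  by_contra hne
  apply hx
  rw [← hasTwin_map_iff α]
  exact ⟨β x, hne, (twin_of_data hαβ x).symm⟩

end data

/-- **Main construction.** `m` is a marking of the vertices and `P` a relation which is
invariant under the automorphisms that preserve the marks.  The distinguishing colouring `c` of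
`G` can be coded by `Fin k × Sym2 (Fin k)` on the edges without twins which `P` does not orient,
by `Fin k × Fin k × Fin k` on the edges without twins which `P` orients, by `Fin k × Fin k` on
the edges with one end that has a twin, and by `Fin k` on the edges both of whose ends have
twins. -/
lemma hasDist_of_codes [Fintype V] {G : SimpleGraph V} {D k : ℕ} (hk : 0 < k)
    (htop : ∀ z, ¬ IsStar G z) (hV : 3 ≤ Fintype.card V)
    (c : Sym2 V → Fin D) (hc : IsDistS G c) (m : V → Fin k) (P : V → V → Prop)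
    (hP : ∀ α : G ≃g G, (∀ x, ¬ HasTwin G x → m (α x) = m x) →
      ∀ x y, G.Adj x y → ¬ HasTwin G x → ¬ HasTwin G y → (P (α x) (α y) ↔ P x y))
    (p0 : Fin D → Fin k × Sym2 (Fin k)) (p3 : Fin D → Fin k × Fin k × Fin k)
    (p1 : Fin D → Fin k × Fin k) (p2 : Fin D → Fin k)
    (H0 : ∀ x y x' y', G.Adj x y → G.Adj x' y' → ¬ HasTwin G x → ¬ HasTwin G y →
      ¬ HasTwin G x' → ¬ HasTwin G y' → (P x y ↔ P y x) → (P x' y' ↔ P y' x') →
      p0 (c s(x', y')) = p0 (c s(x, y)) → c s(x', y') = c s(x, y))
    (H3 : ∀ x y x' y', G.Adj x y → G.Adj x' y' → ¬ HasTwin G x → ¬ HasTwin G y →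
      ¬ HasTwin G x' → ¬ HasTwin G y' → ¬ (P x y ↔ P y x) → ¬ (P x' y' ↔ P y' x') →
      p3 (c s(x', y')) = p3 (c s(x, y)) → c s(x', y') = c s(x, y))
    (H1 : ∀ x y x' y', G.Adj x y → G.Adj x' y' → ¬ HasTwin G x → HasTwin G y →
      ¬ HasTwin G x' → HasTwin G y' → p1 (c s(x', y')) = p1 (c s(x, y)) →
      c s(x', y') = c s(x, y))
    (H2 : ∀ x y x' y', G.Adj x y → G.Adj x' y' → HasTwin G x → HasTwin G y →
      HasTwin G x' → HasTwin G y' → p2 (c s(x', y')) = p2 (c s(x, y)) →
      c s(x', y') = c s(x, y))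
    (f : V → V → Fin k) (g : V → Fin k)
    (Hf : ∀ x y, Twin G x y → (∀ z, G.Adj x z → f x z = f y z) → g x = g y → x = y) :
    HasDist (mycielskian G) k := by
  classical
  obtain ⟨e⟩ : Nonempty (V ≃ Fin (Fintype.card V)) := ⟨Fintype.equivFin V⟩
  -- representatives of unordered pairs
  have hrep : ∀ z : Sym2 (Fin k), ∃ r : Fin k × Fin k, s(r.1, r.2) = z := by
    intro z
    induction z using Sym2.ind with
    | _ x y => exact ⟨(x, y), rfl⟩
  choose rep hrep using hrep
  let a0 : V → V → Fin k := fun x y =>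
    if HasTwin G x then (if HasTwin G y then p2 (c s(x, y)) else (p1 (c s(x, y))).1)
    else (if HasTwin G y then (p1 (c s(x, y))).1
      else if (P x y ↔ P y x) then (p0 (c s(x, y))).1 else (p3 (c s(x, y))).1)
  have ha_comm : ∀ x y, a0 x y = a0 y x := by
    intro x y
    simp only [a0, Sym2.eq_swap (a := x) (b := y), iff_comm (a := P x y) (b := P y x)]
    by_cases hx : HasTwin G x <;> by_cases hy : HasTwin G y <;> simp [hx, hy]
  let a : Sym2 V → Fin k := Sym2.lift ⟨a0, ha_comm⟩
  have haa : ∀ x y, a s(x, y) = a0 x y := fun _ _ => rfl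
  let b : V → V → Fin k := fun x y =>
    if HasTwin G x then f x y
    else if HasTwin G y then (p1 (c s(x, y))).2
    else if (P x y ↔ P y x) then
      (if e x < e y then (rep (p0 (c s(x, y))).2).1 else (rep (p0 (c s(x, y))).2).2)
    else (if P x y then (p3 (c s(x, y))).2.1 else (p3 (c s(x, y))).2.2)
  let h : V → Fin k := fun x => if HasTwin G x then g x else m x
  have ha2 : ∀ x y, HasTwin G x → HasTwin G y → a s(x, y) = p2 (c s(x, y)) := by
    intro x y hx hy
    rw [haa]; simp only [a0]; rw [if_pos hx, if_pos hy]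
  have ha1 : ∀ x y, ¬ HasTwin G x → HasTwin G y → a s(x, y) = (p1 (c s(x, y))).1 := by
    intro x y hx hy
    rw [haa]; simp only [a0]; rw [if_neg hx, if_pos hy]
  have ha0 : ∀ x y, ¬ HasTwin G x → ¬ HasTwin G y → (P x y ↔ P y x) →
      a s(x, y) = (p0 (c s(x, y))).1 := by
    intro x y hx hy hm
    rw [haa]; simp only [a0]; rw [if_neg hx, if_neg hy, if_pos hm]
  have ha3 : ∀ x y, ¬ HasTwin G x → ¬ HasTwin G y → ¬ (P x y ↔ P y x) →
      a s(x, y) = (p3 (c s(x, y))).1 := by
    intro x y hx hy hm
    rw [haa]; simp only [a0]; rw [if_neg hx, if_neg hy, if_neg hm]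
  have hbT : ∀ x y, HasTwin G x → b x y = f x y := fun x y hx => by simp only [b]; rw [if_pos hx]
  have hb1 : ∀ x y, ¬ HasTwin G x → HasTwin G y → b x y = (p1 (c s(x, y))).2 :=
    fun x y hx hy => by simp only [b]; rw [if_neg hx, if_pos hy]
  have hb0 : ∀ x y, G.Adj x y → ¬ HasTwin G x → ¬ HasTwin G y → (P x y ↔ P y x) →
      s(b x y, b y x) = (p0 (c s(x, y))).2 := by
    intro x y hxy hx hy hm
    have hne : e x ≠ e y := fun h' => hxy.ne (e.injective h')
    simp only [b]
    rw [if_neg hx, if_neg hy, if_neg hy, if_neg hx, if_pos hm, if_pos hm.symm,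
      Sym2.eq_swap (a := y) (b := x)]
    rcases lt_or_gt_of_ne hne with hlt | hlt
    · rw [if_pos hlt, if_neg hlt.not_gt]
      exact hrep _
    · rw [if_neg hlt.not_gt, if_pos hlt, Sym2.eq_swap]
      exact hrep _
  have hb3 : ∀ x y, ¬ HasTwin G x → ¬ HasTwin G y → P x y → ¬ P y x →
      (b x y, b y x) = (p3 (c s(x, y))).2 := by
    intro x y hx hy hm hm'
    have h1 : ¬ (P x y ↔ P y x) := fun h => hm' (h.1 hm)
    have h2 : ¬ (P y x ↔ P x y) := fun h => hm' (h.2 hm)
    simp only [b]
    rw [if_neg hx, if_neg hy, if_neg hy, if_neg hx, if_neg h1, if_neg h2, if_pos hm,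
      if_neg hm', Sym2.eq_swap (a := y) (b := x)]
  have hhm : ∀ x, ¬ HasTwin G x → h x = m x := fun x hx => if_neg hx
  have hhg : ∀ x, HasTwin G x → h x = g x := fun x hx => if_pos hx
  refine hasDist_of_sym (scol hk a b h) (isDistS_scol hk a b h ?_ ?_)
  · intro φ _
    cases hw : φ .w with
    | v i => exact absurd hw (map_w_ne_v hV φ i)
    | u i => exact absurd (star_of_map_w φ i hw) (htop i)
    | w => rfl
  · intro α β hαβ hA hB hH
    have hβ : ∀ x, ¬ HasTwin G x → β x = α x := fun x hx => beta_eq hαβ hx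
    have hα : ∀ x, α x = x := by
      apply hc α
      intro x y hxy
      have hxy' : G.Adj (α x) (α y) := α.map_adj_iff.2 hxy
      by_cases hx : HasTwin G x <;> by_cases hy : HasTwin G y
      · have hx' := hasTwin_map α hx
        have hy' := hasTwin_map α hy
        apply H2 x y (α x) (α y) hxy hxy' hx hy hx' hy'
        rw [← ha2 _ _ hx' hy', ← ha2 _ _ hx hy, hA x y hxy]
      · have hx' := hasTwin_map α hx
        have hy' : ¬ HasTwin G (α y) := by rwa [hasTwin_map_iff]
        have h1 := H1 y x (α y) (α x) hxy.symm hxy'.symm hy hx hy' hx' (by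
          apply Prod.ext
          · rw [← ha1 _ _ hy' hx', ← ha1 _ _ hy hx, hA y x hxy.symm]
          · rw [← hb1 _ _ hy' hx', ← hb1 _ _ hy hx, ← hB y x hxy.symm, hβ y hy])
        rwa [Sym2.eq_swap, Sym2.eq_swap (a := y)] at h1
      · have hy' := hasTwin_map α hy
        have hx' : ¬ HasTwin G (α x) := by rwa [hasTwin_map_iff]
        exact H1 x y (α x) (α y) hxy hxy' hx hy hx' hy' (by
          apply Prod.ext
          · rw [← ha1 _ _ hx' hy', ← ha1 _ _ hx hy, hA x y hxy]
          · rw [← hb1 _ _ hx' hy', ← hb1 _ _ hx hy, ← hB x y hxy, hβ x hx])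
      · have hx' : ¬ HasTwin G (α x) := by rwa [hasTwin_map_iff]
        have hy' : ¬ HasTwin G (α y) := by rwa [hasTwin_map_iff]
        have hmα : ∀ z, ¬ HasTwin G z → m (α z) = m z := by
          intro z hz
          have hz' : ¬ HasTwin G (α z) := by rwa [hasTwin_map_iff]
          rw [← hhm _ hz', ← hhm _ hz, ← hβ z hz, hH]
        have hP1 := hP α hmα x y hxy hx hy
        have hP2 := hP α hmα y x hxy.symm hy hx
        by_cases hm : (P x y ↔ P y x)
        · have hm' : (P (α x) (α y) ↔ P (α y) (α x)) := by rw [hP1, hP2]; exact hm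
          apply H0 x y (α x) (α y) hxy hxy' hx hy hx' hy' hm hm'
          apply Prod.ext
          · rw [← ha0 _ _ hx' hy' hm', ← ha0 _ _ hx hy hm, hA x y hxy]
          · rw [← hb0 _ _ hxy' hx' hy' hm', ← hb0 _ _ hxy hx hy hm, ← hB x y hxy,
              ← hB y x hxy.symm, hβ x hx, hβ y hy]
        · have hm' : ¬ (P (α x) (α y) ↔ P (α y) (α x)) := by rw [hP1, hP2]; exact hm
          by_cases hxyP : P x y
          · have hyxP : ¬ P y x := fun h => hm ⟨fun _ => h, fun _ => hxyP⟩
            have q1 := hP1.2 hxyP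
            have q2 : ¬ P (α y) (α x) := fun h => hyxP (hP2.1 h)
            apply H3 x y (α x) (α y) hxy hxy' hx hy hx' hy' hm hm'
            apply Prod.ext
            · rw [← ha3 _ _ hx' hy' hm', ← ha3 _ _ hx hy hm, hA x y hxy]
            · rw [← hb3 _ _ hx' hy' q1 q2, ← hb3 _ _ hx hy hxyP hyxP, ← hB x y hxy,
                ← hB y x hxy.symm, hβ x hx, hβ y hy]
          · have hyxP : P y x := by
              by_contra h
              exact hm ⟨fun h' => absurd h' hxyP, fun h' => absurd h' h⟩
            have q1 := hP2.2 hyxP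
            have q2 : ¬ P (α x) (α y) := fun h => hxyP (hP1.1 h)
            have hn : ¬ (P y x ↔ P x y) := fun h => hm h.symm
            have hn' : ¬ (P (α y) (α x) ↔ P (α x) (α y)) := fun h => hm' h.symm
            have h1 := H3 y x (α y) (α x) hxy.symm hxy'.symm hy hx hy' hx' hn hn' (by
              apply Prod.ext
              · rw [← ha3 _ _ hy' hx' hn', ← ha3 _ _ hy hx hn, hA y x hxy.symm]
              · rw [← hb3 _ _ hy' hx' q1 q2, ← hb3 _ _ hy hx hyxP hxyP, ← hB x y hxy,
                  ← hB y x hxy.symm, hβ x hx, hβ y hy])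
            rwa [Sym2.eq_swap, Sym2.eq_swap (a := y)] at h1
    refine ⟨hα, fun x => ?_⟩
    have htw : Twin G (β x) x := by
      have := twin_of_data hαβ x
      rwa [hα x] at this
    by_contra hne
    have hTx : HasTwin G x := ⟨β x, hne, htw.symm⟩
    have hTb : HasTwin G (β x) := ⟨x, fun h' => hne h'.symm, htw⟩
    apply hne
    apply Hf _ _ htw
    · intro z hz
      have hz' : G.Adj x z := (htw z).1 hz
      have h1 := hB x z hz'
      rw [hα z, hbT _ _ hTb, hbT _ _ hTx] at h1
      exact h1
    · rw [← hhg _ hTb, ← hhg _ hTx]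
      exact hH x

end Pool.Agent.Lib.MP_da4765_co
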