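import Pool.Agent.Lib.MP_da4765_co.Main

/-!
# Twin classes
-/

namespace Pool.Agent.Lib.MP_da4765_co

variable {V : Type*}

/-- Twin classes which are not too large can be told apart at the shadows. -/
lemma exists_patterns [Fintype V] {G : SimpleGraph V} {k : ℕ} (hk : 0 < k)
    (hT : ∀ x, {y | Twin G x y}.ncard ≤ k ^ ((G.neighborSet x).ncard + 1)) :
    ∃ (f : V → V → Fin k) (g : V → Fin k),
      ∀ x y, Twin G x y → (∀ z, G.Adj x z → f x z = f y z) → g x = g y → x = y := by
  classical
  have h1 : ∀ r : V, ∃ F : V → (V → Fin k) × Fin k, ∀ x y, Twin G r x → Twin G r y →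
      (∀ z, G.Adj r z → (F x).1 z = (F y).1 z) → (F x).2 = (F y).2 → x = y := by
    intro r
    have hcard : Fintype.card {y // Twin G r y} ≤
        Fintype.card ((G.neighborSet r → Fin k) × Fin k) := by
      rw [Fintype.card_prod, Fintype.card_fun, Fintype.card_fin, ← pow_succ]
      have h := hT r
      rw [Set.ncard_eq_toFinset_card', Set.ncard_eq_toFinset_card', Set.toFinset_card,
        Set.toFinset_card] at h
      exact h
    obtain ⟨i⟩ := Function.Embedding.nonempty_of_card_le hcard
    refine ⟨fun y => if hy : Twin G r y then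
      (fun z => if hz : G.Adj r z then (i ⟨y, hy⟩).1 ⟨z, hz⟩ else ⟨0, hk⟩, (i ⟨y, hy⟩).2)
      else (fun _ => ⟨0, hk⟩, ⟨0, hk⟩), ?_⟩
    intro x y hx hy h1 h2
    simp only [dif_pos hx, dif_pos hy] at h1 h2
    have h3 : i ⟨x, hx⟩ = i ⟨y, hy⟩ := by
      apply Prod.ext
      · funext z
        have := h1 z.1 z.2
        have hz : G.Adj r z.1 := z.2
        simp only [dif_pos hz] at this
        exact this
      · exact h2
    have h4 := i.injective h3
    exact congrArg Subtype.val h4
  choose F hF using h1
  let S : Setoid V := ⟨Twin G, fun x => Twin.refl G x, fun h => h.symm, fun h h' => h.trans h'⟩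
  let r : V → V := fun x => Quotient.out (Quotient.mk S x)
  have hr : ∀ x, Twin G (r x) x := fun x => Quotient.mk_out (s := S) x
  have hrr : ∀ x y, Twin G x y → r x = r y := fun x y h => by
    simp only [r]
    rw [Quotient.sound (s := S) h]
  refine ⟨fun y z => (F (r y) y).1 z, fun y => (F (r y) y).2, fun x y hxy hf hg => ?_⟩
  have h2 := hrr x y hxy
  simp only at hf hg
  rw [← h2] at hf hg
  refine hF (r x) x y (hr x) (h2 ▸ hr y) (fun z hz => hf z ((hr x z).1 hz)) hg

/-- The necessary condition: twin classes cannot be too large. -/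
lemma ncard_twin_le [Fintype V] {G : SimpleGraph V} {k : ℕ} (hk : 0 < k)
    (h : HasDist (mycielskian G) k) (x : V) :
    {y | Twin G x y}.ncard ≤ k ^ ((G.neighborSet x).ncard + 1) := by
  classical
  obtain ⟨c, hc⟩ := sym_of_hasDist hk h
  have hcard : Fintype.card {y // Twin G x y} ≤
      Fintype.card ((G.neighborSet x → Fin k) × Fin k) := by
    apply Fintype.card_le_of_injective
      (fun y : {y // Twin G x y} => ((fun z : G.neighborSet x => c s(.u y.1, .v z.1)),
        c s(.u y.1, .w)))
    rintro ⟨y, hy⟩ ⟨y', hy'⟩ hyy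
    have h1 := congrArg Prod.fst hyy
    have h2 : c s(.u y, .w) = c s(.u y', .w) := congrArg Prod.snd hyy
    have htw : Twin G y y' := hy.symm.trans hy'
    have htw' : Twin (mycielskian G) (.u y) (.u y') := by
      intro p
      cases p with
      | v z => simpa using htw z
      | u z => simp
      | w => simp
    have h3 : (MVert.u y : MVert V) = .u y' := by
      apply hc.twin_eq htw'
      intro p hp
      cases p with
      | v z =>
        have hz : G.Adj x z := (hy z).2 (by simpa using hp)
        exact congrFun h1 ⟨z, hz⟩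
      | u z => simp at hp
      | w => exact h2
    exact Subtype.ext (u_inj h3)
  rw [Fintype.card_prod, Fintype.card_fun, Fintype.card_fin, ← pow_succ] at hcard
  rw [Set.ncard_eq_toFinset_card', Set.ncard_eq_toFinset_card', Set.toFinset_card,
    Set.toFinset_card]
  exact hcard

end Pool.Agent.Lib.MP_da4765_co
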