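import Mathlib

/-!
# The Mycielskian of a graph and the distinguishing index
-/

namespace Pool.Agent.Lib.MP_da4765_co

variable {V : Type*}

/-- The vertices of the Mycielskian: the old vertices `v x`, their shadows `u x` and the
top vertex `w`. -/
inductive MVert (V : Type*) where
  | v (x : V) : MVert V
  | u (x : V) : MVert V
  | w : MVert V

/-- Adjacency in the Mycielskian of `G`. -/
def MAdj (G : SimpleGraph V) : MVert V → MVert V → Prop
  | .v x, .v y => G.Adj x y
  | .u x, .v y => G.Adj x y
  | .v x, .u y => G.Adj x y
  | .w, .u _ => True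
  | .u _, .w => True
  | _, _ => False

/-- The Mycielskian of `G`: the edges of `G`, the edges `u x -- v y` and `v x -- u y` for every
edge `x y` of `G`, and the edges `w -- u x`. -/
def mycielskian (G : SimpleGraph V) : SimpleGraph (MVert V) where
  Adj := MAdj G
  symm := ⟨by
    intro p q h
    cases p <;> cases q <;> simp_all [MAdj, G.adj_comm]⟩
  loopless := ⟨by
    intro p h
    cases p <;> simp_all [MAdj]⟩

/-- The edge colouring `c` of `G` is distinguishing: the only automorphism of `G` which maps
every edge to an edge of the same colour is the identity. -/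
def IsDistinguishing (G : SimpleGraph V) {d : ℕ} (c : G.edgeSet → Fin d) : Prop :=
  ∀ φ : G ≃g G, (∀ e : G.edgeSet, c (φ.mapEdgeSet e) = c e) → ∀ x : V, φ x = x

/-- `G` has a distinguishing edge colouring with `d` colours. -/
def HasDist (G : SimpleGraph V) (d : ℕ) : Prop :=
  ∃ c : G.edgeSet → Fin d, IsDistinguishing G c

/-- The distinguishing index: the least positive `d` for which `G` has a distinguishing edge
colouring with `d` colours. -/
noncomputable def distIndex (G : SimpleGraph V) : ℕ :=
  sInf {d : ℕ | 0 < d ∧ HasDist G d}

/-- `G` is a star with centre `z`. -/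
def IsStar (G : SimpleGraph V) (z : V) : Prop :=
  ∀ x y, G.Adj x y ↔ x ≠ y ∧ (x = z ∨ y = z)

/-- `x` and `y` have the same neighbourhood in `G`. -/
def Twin (G : SimpleGraph V) (x y : V) : Prop := ∀ z, G.Adj x z ↔ G.Adj y z

/-- `x` has a twin apart from itself. -/
def HasTwin (G : SimpleGraph V) (x : V) : Prop := ∃ y, y ≠ x ∧ Twin G x y

/-- The number of ends of the edge `e` that have a twin. -/
noncomputable def twinnedEnds (G : SimpleGraph V) (e : G.edgeSet) : ℕ :=
  {x : V | x ∈ e.1 ∧ HasTwin G x}.ncard

/-- The number of colours that `c` uses on the edges with exactly `i` ends that have a twin. -/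
noncomputable def paletteSize (G : SimpleGraph V) {D : ℕ} (c : G.edgeSet → Fin D) (i : ℕ) : ℕ :=
  (c '' {e | twinnedEnds G e = i}).ncard

end Pool.Agent.Lib.MP_da4765_co
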