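import Pool.Agent.Lib.MP_da4765_co.Bound

/-!
# Bounds for the distinguishing index of the Mycielskian
-/

namespace Pool.Agent.Lib.MP_da4765_co

variable {V : Type*}

lemma IsStar.center_unique [Fintype V] {G : SimpleGraph V} {z z' : V} (h : IsStar G z)
    (h' : IsStar G z') (hV : 3 ≤ Fintype.card V) : z = z' := by
  classical
  by_contra hne
  obtain ⟨x, hx⟩ : ∃ x, x ∉ ({z, z'} : Finset V) := by
    by_contra hcon
    push Not at hcon
    have h2 : Fintype.card V ≤ ({z, z'} : Finset V).card := by
      rw [← Finset.card_univ]
      exact Finset.card_le_card fun x _ => hcon x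
    have h3 : ({z, z'} : Finset V).card ≤ 2 := Finset.card_le_two
    omega
  simp only [Finset.mem_insert, Finset.mem_singleton, not_or] at hx
  have h1 : G.Adj z x := (h z x).2 ⟨fun e => hx.1 e.symm, Or.inl rfl⟩
  rcases ((h' z x).1 h1).2 with h2 | h2
  · exact hne h2
  · exact hx.2 h2

/-- The Mycielskian of a star with `n` vertices has a distinguishing colouring with `k` colours
as soon as `n ≤ k ^ 2`. -/
lemma hasDist_star [Fintype V] {G : SimpleGraph V} {k : ℕ} {z : V} (hz : IsStar G z)
    (hV : 3 ≤ Fintype.card V) (hk : Fintype.card V ≤ k ^ 2) : HasDist (mycielskian G) k := by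
  classical
  have hk0 : 0 < k := by
    rcases Nat.eq_zero_or_pos k with rfl | h
    · simp at hk; omega
    · exact h
  obtain ⟨x0, hx0⟩ : ∃ x0, x0 ≠ z := by
    have : Nontrivial V := Fintype.one_lt_card_iff_nontrivial.1 (by omega)
    exact exists_ne z
  obtain ⟨f⟩ : Nonempty (V ↪ Fin k × Fin k) := by
    apply Function.Embedding.nonempty_of_card_le
    simpa [sq] using hk
  let g : V → Fin k × Fin k := fun x => f (Equiv.swap z x0 x)
  have hg : Function.Injective g := fun x y hxy => (Equiv.swap z x0).injective (f.injective hxy)
  let a0 : V → V → Fin k := fun x y =>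
    if x = z then (f y).1 else if y = z then (f x).1 else ⟨0, hk0⟩
  have ha0 : ∀ x y, a0 x y = a0 y x := by
    intro x y
    simp only [a0]
    by_cases hx : x = z <;> by_cases hy : y = z <;> simp [hx, hy]
  let a : Sym2 V → Fin k := Sym2.lift ⟨a0, ha0⟩
  have ha : ∀ x, a s(z, x) = (f x).1 := fun x => by
    change a0 z x = _
    simp [a0]
  let b : V → V → Fin k := fun x y => if x = z then (f y).2 else (g x).1
  let h : V → Fin k := fun x => (g x).2
  have hadjz : ∀ x, x ≠ z → G.Adj z x := fun x hx => (hz z x).2 ⟨hx.symm, Or.inl rfl⟩
  have hnadj : ∀ x y, x ≠ z → y ≠ z → ¬ G.Adj x y := by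
    intro x y hx hy hxy
    rcases ((hz x y).1 hxy).2 with h1 | h1
    · exact hx h1
    · exact hy h1
  refine hasDist_of_sym (scol hk0 a b h) (isDistS_scol hk0 a b h ?_ ?_)
  · intro φ hφ
    have hadj : ∀ p r, (mycielskian G).Adj (φ p) (φ r) ↔ (mycielskian G).Adj p r :=
      fun p r => φ.map_adj_iff
    cases hw : φ .w with
    | v i => exact absurd hw (map_w_ne_v hV φ i)
    | w => rfl
    | u i =>
      exfalso
      obtain rfl : i = z := (star_of_map_w φ i hw).center_unique hz hV
      -- the image of the shadow of the leaf x0
      have h1 : (mycielskian G).Adj (.u i) (φ (.u x0)) := by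
        rw [← hw, hadj]; simp
      -- it is not w
      have h2 : φ (.u x0) ≠ .w := by
        intro hcon
        have h3 : ∀ y : V, MVert.u y = .u i ∨ MVert.u y = φ (.v i) := by
          intro y
          obtain ⟨r, hr⟩ := φ.surjective (.u y)
          have h4 : (mycielskian G).Adj (φ (.u x0)) (φ r) := by rw [hcon, hr]; simp
          rw [hadj] at h4
          cases r with
          | v t =>
            have h5 : G.Adj x0 t := by simpa using h4
            have h6 : t = i := by
              by_contra ht
              exact hnadj x0 t hx0 ht h5
            right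
            rw [← hr, h6]
          | u t => simp at h4
          | w => left; rw [← hr, hw]
        have h7 : Fintype.card V ≤ ({.u i, φ (.v i)} : Finset (MVert V)).card := by
          rw [← Finset.card_univ, ← Finset.card_image_of_injective _ u_inj]
          apply Finset.card_le_card
          intro p hp
          simp only [Finset.mem_image, Finset.mem_univ, true_and] at hp
          obtain ⟨y, rfl⟩ := hp
          simpa using h3 y
        have h8 : ({.u i, φ (.v i)} : Finset (MVert V)).card ≤ 2 := Finset.card_le_two
        omega
      cases hp : φ (.u x0) with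
      | w => exact h2 hp
      | u y => rw [hp] at h1; simp at h1
      | v y =>
        rw [hp] at h1
        have hyi : y ≠ i := by
          intro hcon
          rw [hcon] at h1
          simp at h1
        -- the old centre is fixed
        have h4 : φ (.v i) = .v i := by
          have h5 : (mycielskian G).Adj (φ (.u x0)) (φ (.v i)) := by
            rw [hadj]; simpa using (hadjz x0 hx0).symm
          rw [hp] at h5
          have h6 : φ (.v i) ≠ .u i := fun hcon => by
            have := φ.injective (hcon.trans hw.symm)
            cases this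
          cases hq : φ (.v i) with
          | v t =>
            rw [hq] at h5
            have : t = i := by
              by_contra ht
              exact hnadj y t hyi ht (by simpa using h5)
            rw [this]
          | u t =>
            rw [hq] at h5 h6
            exfalso
            have : t = i := by
              by_contra ht
              exact hnadj y t hyi ht (by simpa using h5)
            exact h6 (by rw [this])
          | w => rw [hq] at h5; simp at h5
        have c1 := hφ (.u x0) (.v i) (by simpa using (hadjz x0 hx0).symm)
        rw [hp, h4] at c1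
        have c2 := hφ .w (.u x0) (by simp)
        rw [hw, hp] at c2
        have c1' : a s(y, i) = b x0 i := c1
        have c2' : b i y = h x0 := c2
        have hf : f y = g x0 := by
          apply Prod.ext
          · rw [← ha y, Sym2.eq_swap, c1']
            simp only [b]
            rw [if_neg hx0]
          · have : b i y = (f y).2 := if_pos rfl
            rw [← this, c2']
        have hf' : f y = f i := by
          rw [hf]
          simp only [g]
          rw [Equiv.swap_apply_right]
        exact hyi (f.injective hf')
  · intro α β hαβ hA hB hH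
    have hαz : α z = z := by
      have : IsStar G (α z) := by
        intro x y
        obtain ⟨x, rfl⟩ := α.surjective x
        obtain ⟨y, rfl⟩ := α.surjective y
        rw [α.map_adj_iff, hz x y]
        simp
      exact this.center_unique hz hV
    have hzT : ¬ HasTwin G z := by
      rintro ⟨y, hy, hyt⟩
      exact hyt.not_adj (hadjz y hy)
    have hβz : β z = z := by rw [beta_eq hαβ hzT, hαz]
    have hα : ∀ x, α x = x := by
      intro x
      by_cases hx : x = z
      · rw [hx, hαz]
      have h1 := hA z x (hadjz x hx)
      rw [hαz, ha, ha] at h1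
      have h2 := hB z x (hadjz x hx)
      rw [hβz] at h2
      have hbz : ∀ t, b z t = (f t).2 := fun t => if_pos rfl
      rw [hbz, hbz] at h2
      exact f.injective (Prod.ext h1 h2)
    refine ⟨hα, fun x => ?_⟩
    by_cases hx : x = z
    · rw [hx, hβz]
    have hx' : β x ≠ z := fun hcon => hx (β.injective (hcon.trans hβz.symm))
    have h1 := hB x z (hadjz x hx).symm
    simp only [b] at h1
    rw [if_neg hx, if_neg hx'] at h1
    exact hg (Prod.ext h1 (hH x))

/-- **The general bound.** -/
theorem hasDist_mycielskian [Fintype V] {G : SimpleGraph V} (hG : G.Connected)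
    (hV : 3 ≤ Fintype.card V) : HasDist (mycielskian G) (distIndex G) := by
  classical
  obtain ⟨hk, hd⟩ := distIndex_spec hG hV
  generalize distIndex G = k at hk hd ⊢
  obtain ⟨c, hc⟩ := sym_of_hasDist hk hd
  by_cases hstar : ∃ z, IsStar G z
  · obtain ⟨z, hz⟩ := hstar
    apply hasDist_star hz hV
    -- the leaves have different colours
    have h1 : (Finset.univ.erase z).card ≤ (Finset.univ : Finset (Fin k)).card := by
      apply Finset.card_le_card_of_injOn (fun x => c s(x, z)) (fun _ _ => Finset.mem_coe.2 (Finset.mem_univ _))
      intro x hx y hy hxy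
      have hx' : x ≠ z := by simpa using hx
      have hy' : y ≠ z := by simpa using hy
      have htw : Twin G x y := by
        intro t
        rw [hz x t, hz y t]
        constructor
        · rintro ⟨h1, h2 | h2⟩
          · exact absurd h2 hx'
          · exact ⟨fun e => hy' (e.trans h2), Or.inr h2⟩
        · rintro ⟨h1, h2 | h2⟩
          · exact absurd h2 hy'
          · exact ⟨fun e => hx' (e.trans h2), Or.inr h2⟩
      apply hc.twin_eq htw
      intro t ht
      have : t = z := by
        rcases ((hz x t).1 ht).2 with h2 | h2
        · exact absurd h2 hx'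
        · exact h2
      rw [this]
      exact hxy
    rw [Finset.card_erase_of_mem (Finset.mem_univ z), Finset.card_univ, Finset.card_univ,
      Fintype.card_fin] at h1
    have h2 : 2 ≤ k := by omega
    have h3 : Fintype.card V ≤ k + 1 := by omega
    nlinarith
  · push Not at hstar
    refine hasDist_of_codes hk hstar hV c hc (fun _ => ⟨0, hk⟩) (fun _ _ => False)
      (fun _ _ _ _ _ _ _ => Iff.rfl) (fun t => (t, s(t, t)))
      (fun t => (t, t, t)) (fun t => (t, t)) (fun t => t) ?_ ?_ ?_ ?_
      (fun x y => c s(x, y)) (fun _ => ⟨0, hk⟩) ?_
    · intro _ _ _ _ _ _ _ _ _ _ _ _ h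
      exact (Prod.ext_iff.1 h).1
    · intro _ _ _ _ _ _ _ _ _ _ h
      exact absurd Iff.rfl h
    · intro _ _ _ _ _ _ _ _ _ _ h
      exact (Prod.ext_iff.1 h).1
    · intro _ _ _ _ _ _ _ _ _ _ h
      exact h
    · intro x y hxy h _
      exact hc.twin_eq hxy h

theorem distIndex_mycielskian_le [Fintype V] {G : SimpleGraph V} (hG : G.Connected)
    (hV : 3 ≤ Fintype.card V) : distIndex (mycielskian G) ≤ distIndex G :=
  distIndex_le (distIndex_spec hG hV).1 (hasDist_mycielskian hG hV)

/-- The distinguishing index of the Mycielskian is defined. -/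
lemma distIndex_mycielskian_spec [Fintype V] {G : SimpleGraph V} (hG : G.Connected)
    (hV : 3 ≤ Fintype.card V) : 0 < distIndex (mycielskian G) ∧
      HasDist (mycielskian G) (distIndex (mycielskian G)) :=
  Nat.sInf_mem (s := {d : ℕ | 0 < d ∧ HasDist (mycielskian G) d})
    ⟨distIndex G, (distIndex_spec hG hV).1, hasDist_mycielskian hG hV⟩

/-- A connected twin-free graph with at least three vertices is not a star. -/
lemma not_isStar_of_twinFree [Fintype V] {G : SimpleGraph V} (hG : G.Connected)
    (hV : 3 ≤ Fintype.card V) (htf : ∀ x y, Twin G x y → x = y) (z : V) : ¬ IsStar G z := by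
  intro hz
  obtain ⟨x, hx⟩ : ∃ x, x ≠ z := by
    have : Nontrivial V := Fintype.one_lt_card_iff_nontrivial.1 (by omega)
    exact exists_ne z
  have hxz : G.Adj z x := (hz z x).2 ⟨hx.symm, Or.inl rfl⟩
  obtain ⟨y, hyz, hyx, -⟩ := exists_third hG hV hxz
  apply hyx
  apply htf
  intro t
  rw [hz x t, hz y t]
  constructor
  · rintro ⟨h1, h2 | h2⟩
    · exact absurd h2 hyz
    · exact ⟨fun e => hx (e.trans h2), Or.inr h2⟩
  · rintro ⟨h1, h2 | h2⟩
    · exact absurd h2 hx
    · exact ⟨fun e => hyz (e.trans h2), Or.inr h2⟩

end Pool.Agent.Lib.MP_da4765_co
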