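import Pool.Agent.Lib.MP_da4765_co.Classes

/-!
# The bound with three palettes
-/

namespace Pool.Agent.Lib.MP_da4765_co

variable {V : Type*}

lemma twinnedEnds_mk_zero {G : SimpleGraph V} {x y : V} (h : G.Adj x y) (hx : ¬ HasTwin G x)
    (hy : ¬ HasTwin G y) : twinnedEnds G ⟨s(x, y), h⟩ = 0 := by
  have : {z : V | z ∈ s(x, y) ∧ HasTwin G z} = ∅ := by
    ext z
    simp only [Set.mem_ofPred_eq, Set.mem_empty_iff_false, iff_false, not_and, Sym2.mem_iff]
    rintro (rfl | rfl) <;> assumption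
  rw [twinnedEnds, this, Set.ncard_empty]

lemma twinnedEnds_mk_one {G : SimpleGraph V} {x y : V} (h : G.Adj x y) (hx : ¬ HasTwin G x)
    (hy : HasTwin G y) : twinnedEnds G ⟨s(x, y), h⟩ = 1 := by
  have : {z : V | z ∈ s(x, y) ∧ HasTwin G z} = {y} := by
    ext z
    simp only [Set.mem_ofPred_eq, Set.mem_singleton_iff, Sym2.mem_iff]
    constructor
    · rintro ⟨rfl | rfl, h2⟩
      · exact absurd h2 hx
      · rfl
    · rintro rfl
      exact ⟨Or.inr rfl, hy⟩
  rw [twinnedEnds, this, Set.ncard_singleton]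

lemma twinnedEnds_mk_two {G : SimpleGraph V} {x y : V} (h : G.Adj x y) (hx : HasTwin G x)
    (hy : HasTwin G y) : twinnedEnds G ⟨s(x, y), h⟩ = 2 := by
  have : {z : V | z ∈ s(x, y) ∧ HasTwin G z} = {x, y} := by
    ext z
    simp only [Set.mem_ofPred_eq, Set.mem_insert_iff, Set.mem_singleton_iff, Sym2.mem_iff]
    constructor
    · rintro ⟨h1, _⟩
      exact h1
    · rintro (rfl | rfl)
      · exact ⟨Or.inl rfl, hx⟩
      · exact ⟨Or.inr rfl, hy⟩
  rw [twinnedEnds, this, Set.ncard_pair h.ne]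

lemma exists_injOn {D : ℕ} {β : Type*} [Fintype β] [Nonempty β] (S : Set (Fin D))
    (h : S.ncard ≤ Fintype.card β) : ∃ p : Fin D → β, Set.InjOn p S := by
  classical
  have hcard : Fintype.card S ≤ Fintype.card β := by
    rw [Set.ncard_eq_toFinset_card', Set.toFinset_card] at h
    exact h
  obtain ⟨i⟩ := Function.Embedding.nonempty_of_card_le hcard
  refine ⟨fun t => if ht : t ∈ S then i ⟨t, ht⟩ else Classical.arbitrary β, ?_⟩
  intro x hx y hy hxy
  simp only [dif_pos hx, dif_pos hy] at hxy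
  exact congrArg Subtype.val (i.injective hxy)

lemma card_codes (k : ℕ) : 2 * Fintype.card (Fin k × Sym2 (Fin k)) = k ^ 2 * (k + 1) := by
  rw [Fintype.card_prod, Sym2.card, Fintype.card_fin, Nat.choose_two_right]
  have h2 : 2 ∣ (k + 1) * (k + 1 - 1) := by
    rw [Nat.add_sub_cancel]
    exact (Nat.even_mul_succ_self k).two_dvd.trans (by rw [mul_comm])
  rw [mul_left_comm, Nat.mul_div_cancel' h2, Nat.add_sub_cancel]
  ring

/-- There is a marking of the vertices of `G` with `k` marks such that no automorphism of `G`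
which preserves the marks of all vertices without twins exchanges the two ends of an edge whose
ends have no twins. -/
def HasMarking (G : SimpleGraph V) (k : ℕ) : Prop :=
  ∃ m : V → Fin k, ∀ α : G ≃g G, (∀ x, ¬ HasTwin G x → m (α x) = m x) →
    ∀ x y, G.Adj x y → ¬ HasTwin G x → ¬ HasTwin G y → ¬ (α x = y ∧ α y = x)

/-- A proper colouring is such a marking. -/
lemma hasMarking_of_colorable {G : SimpleGraph V} {k : ℕ} (h : G.Colorable k) :
    HasMarking G k := by
  obtain ⟨C⟩ := h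
  refine ⟨fun x => C x, fun α hα x y hxy hx _ hcon => ?_⟩
  have h1 := hα x hx
  rw [hcon.1] at h1
  exact C.valid hxy h1.symm

/-- The invariant orientation. -/
lemma exists_orientation {G : SimpleGraph V} {k : ℕ} (m : V → Fin k)
    (hm : ∀ α : G ≃g G, (∀ x, ¬ HasTwin G x → m (α x) = m x) →
      ∀ x y, G.Adj x y → ¬ HasTwin G x → ¬ HasTwin G y → ¬ (α x = y ∧ α y = x)) :
    ∃ P : V → V → Prop,
      (∀ α : G ≃g G, (∀ x, ¬ HasTwin G x → m (α x) = m x) →
        ∀ x y, (P (α x) (α y) ↔ P x y)) ∧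
      (∀ x y, G.Adj x y → ¬ HasTwin G x → ¬ HasTwin G y → ¬ (P x y ↔ P y x)) := by
  classical
  let A : Set (G ≃g G) := {α | ∀ x, ¬ HasTwin G x → m (α x) = m x}
  have hone : (RelIso.refl _ : G ≃g G) ∈ A := fun x _ => rfl
  have hsymm : ∀ α ∈ A, α.symm ∈ A := by
    intro α hα x hx
    have h1 : ¬ HasTwin G (α.symm x) := by rwa [hasTwin_map_iff]
    have h2 := hα (α.symm x) h1
    rw [RelIso.apply_symm_apply] at h2
    exact h2.symm
  have htrans : ∀ α ∈ A, ∀ β ∈ A, α.trans β ∈ A := by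
    intro α hα β hβ x hx
    have h1 : ¬ HasTwin G (α x) := by rwa [hasTwin_map_iff]
    change m (β (α x)) = m x
    rw [hβ _ h1, hα x hx]
  let S : Setoid (Sym2 V) :=
    { r := fun e e' => ∃ α ∈ A, Sym2.map α e = e'
      iseqv := by
        refine ⟨fun e => ⟨_, hone, ?_⟩, ?_, ?_⟩
        · induction e using Sym2.ind with
          | _ x y => rfl
        · rintro e _ ⟨α, hα, rfl⟩
          refine ⟨α.symm, hsymm α hα, ?_⟩
          induction e using Sym2.ind with
          | _ x y => simp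
        · rintro e _ _ ⟨α, hα, rfl⟩ ⟨β, hβ, rfl⟩
          refine ⟨α.trans β, htrans α hα β hβ, ?_⟩
          induction e using Sym2.ind with
          | _ x y => rfl }
  have hq : ∀ z : Sym2 V, ∃ q : V × V, s(q.1, q.2) = z := by
    intro z
    induction z using Sym2.ind with
    | _ x y => exact ⟨(x, y), rfl⟩
  choose q hq using hq
  let ρ : Sym2 V → V × V := fun e => q (Quotient.out (Quotient.mk S e))
  have hρ : ∀ e, ∃ α ∈ A, s(α (ρ e).1, α (ρ e).2) = e := by
    intro e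
    obtain ⟨α, hα, h⟩ : ∃ α ∈ A, Sym2.map α (Quotient.out (Quotient.mk S e)) = e :=
      Quotient.mk_out (s := S) e
    refine ⟨α, hα, ?_⟩
    rw [← hq (Quotient.out (Quotient.mk S e))] at h
    exact h
  have hρα : ∀ α ∈ A, ∀ x y, ρ s(α x, α y) = ρ s(x, y) := by
    intro α hα x y
    have h1 : (Quotient.mk S s(x, y)) = Quotient.mk S s(α x, α y) :=
      Quotient.sound (s := S) ⟨α, hα, rfl⟩
    simp only [ρ]
    rw [h1]
  refine ⟨fun x y => ∃ α ∈ A, α (ρ s(x, y)).1 = x ∧ α (ρ s(x, y)).2 = y, ?_, ?_⟩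
  · intro α hα x y
    simp only [hρα α hα]
    constructor
    · rintro ⟨β, hβ, h1, h2⟩
      refine ⟨β.trans α.symm, htrans β hβ _ (hsymm α hα), ?_, ?_⟩
      · change α.symm (β _) = x
        rw [h1, RelIso.symm_apply_apply]
      · change α.symm (β _) = y
        rw [h2, RelIso.symm_apply_apply]
    · rintro ⟨β, hβ, h1, h2⟩
      refine ⟨β.trans α, htrans β hβ _ hα, ?_, ?_⟩
      · change α (β _) = α x
        rw [h1]
      · change α (β _) = α y
        rw [h2]
  · intro x y hxy hx hy hiff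
    have hsw : ρ s(y, x) = ρ s(x, y) := by rw [Sym2.eq_swap]
    have hboth : (∃ α ∈ A, α (ρ s(x, y)).1 = x ∧ α (ρ s(x, y)).2 = y) ∧
        (∃ α ∈ A, α (ρ s(x, y)).1 = y ∧ α (ρ s(x, y)).2 = x) := by
      simp only [hsw] at hiff
      obtain ⟨α, hα, h⟩ := hρ s(x, y)
      rw [Sym2.eq_iff] at h
      rcases h with h | h
      · exact ⟨⟨α, hα, h⟩, hiff.1 ⟨α, hα, h⟩⟩
      · exact ⟨hiff.2 ⟨α, hα, h⟩, ⟨α, hα, h⟩⟩
    obtain ⟨⟨α, hα, h1, h2⟩, ⟨β, hβ, h3, h4⟩⟩ := hboth
    refine hm (α.symm.trans β) (htrans _ (hsymm α hα) β hβ) x y hxy hx hy ⟨?_, ?_⟩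
    · change β (α.symm x) = y
      rw [← h3]
      congr 1
      rw [← h1, RelIso.symm_apply_apply]
      congr 2
      rw [h1]
    · change β (α.symm y) = x
      rw [← h4]
      congr 1
      rw [← h2, RelIso.symm_apply_apply]
      congr 2
      rw [h2]

/-- **The bound with palettes.** -/
theorem distIndex_mycielskian_le_of_palettes [Fintype V] {G : SimpleGraph V}
    (hV : 3 ≤ Fintype.card V) (hstar : ∀ z, ¬ IsStar G z) {k : ℕ} (hk : 0 < k)
    {D : ℕ} (c : G.edgeSet → Fin D) (hc : IsDistinguishing G c)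
    (h0 : 2 * paletteSize G c 0 ≤ k ^ 2 * (k + 1) ∨
      HasMarking G k ∧ paletteSize G c 0 ≤ k ^ 3)
    (h1 : paletteSize G c 1 ≤ k ^ 2) (h2 : paletteSize G c 2 ≤ k)
    (hT : ∀ x, {y | Twin G x y}.ncard ≤ k ^ ((G.neighborSet x).ncard + 1)) :
    HasDist (mycielskian G) k := by
  classical
  obtain ⟨f, g, hfg⟩ := exists_patterns hk hT
  by_cases hD : D = 0
  · -- no edges: every colouring will do
    subst hD
    have hno : ∀ x y, ¬ G.Adj x y := fun x y hxy => (c ⟨s(x, y), hxy⟩).elim0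
    refine hasDist_of_codes hk hstar hV (D := 1) (fun _ => 0) ?_ (fun _ => ⟨0, hk⟩)
      (fun _ _ => False) (fun _ _ _ _ _ _ _ => Iff.rfl)
      (fun _ => (⟨0, hk⟩, s(⟨0, hk⟩, ⟨0, hk⟩))) (fun _ => (⟨0, hk⟩, ⟨0, hk⟩, ⟨0, hk⟩))
      (fun _ => (⟨0, hk⟩, ⟨0, hk⟩)) (fun _ => ⟨0, hk⟩) ?_ ?_ ?_ ?_ f g hfg
    · intro φ _
      apply hc φ
      rintro ⟨e, he⟩
      induction e using Sym2.ind with
      | _ x y => exact absurd he (hno x y)
    · intro x y _ _ h; exact absurd h (hno x y)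
    · intro x y _ _ h; exact absurd h (hno x y)
    · intro x y _ _ h; exact absurd h (hno x y)
    · intro x y _ _ h; exact absurd h (hno x y)
  have hD' : 0 < D := Nat.pos_of_ne_zero hD
  have : Nonempty (Fin k) := ⟨⟨0, hk⟩⟩
  have : Nonempty (Sym2 (Fin k)) := ⟨s(⟨0, hk⟩, ⟨0, hk⟩)⟩
  obtain ⟨p1, hp1⟩ := exists_injOn (β := Fin k × Fin k) (c '' {e | twinnedEnds G e = 1})
    (by rw [Fintype.card_prod, Fintype.card_fin, ← sq]; exact h1)
  obtain ⟨p2, hp2⟩ := exists_injOn (β := Fin k) (c '' {e | twinnedEnds G e = 2})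
    (by rw [Fintype.card_fin]; exact h2)
  obtain ⟨m, P, p0, p3, hP, hp0, hp3⟩ : ∃ (m : V → Fin k) (P : V → V → Prop)
      (p0 : Fin D → Fin k × Sym2 (Fin k)) (p3 : Fin D → Fin k × Fin k × Fin k),
      (∀ α : G ≃g G, (∀ x, ¬ HasTwin G x → m (α x) = m x) →
        ∀ x y, (P (α x) (α y) ↔ P x y)) ∧
      ((∃ x y, G.Adj x y ∧ ¬ HasTwin G x ∧ ¬ HasTwin G y ∧ (P x y ↔ P y x)) →
        Set.InjOn p0 (c '' {e | twinnedEnds G e = 0})) ∧
      ((∃ x y, G.Adj x y ∧ ¬ HasTwin G x ∧ ¬ HasTwin G y ∧ ¬ (P x y ↔ P y x)) →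
        Set.InjOn p3 (c '' {e | twinnedEnds G e = 0})) := by
    rcases h0 with h0 | ⟨⟨m, hm⟩, h0⟩
    · obtain ⟨p0, hp0⟩ := exists_injOn (β := Fin k × Sym2 (Fin k))
        (c '' {e | twinnedEnds G e = 0})
        (by have := card_codes k; unfold paletteSize at h0; omega)
      refine ⟨fun _ => ⟨0, hk⟩, fun _ _ => False, p0, fun _ => (⟨0, hk⟩, ⟨0, hk⟩, ⟨0, hk⟩),
        fun _ _ _ _ => Iff.rfl, fun _ => hp0, ?_⟩
      rintro ⟨_, _, _, _, _, h⟩
      exact absurd Iff.rfl h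
    · obtain ⟨p3, hp3⟩ := exists_injOn (β := Fin k × Fin k × Fin k)
        (c '' {e | twinnedEnds G e = 0})
        (by
          rw [Fintype.card_prod, Fintype.card_prod, Fintype.card_fin]
          unfold paletteSize at h0
          calc _ ≤ k ^ 3 := h0
            _ = k * (k * k) := by ring)
      obtain ⟨P, hP1, hP2⟩ := exists_orientation m hm
      refine ⟨m, P, fun _ => (⟨0, hk⟩, s(⟨0, hk⟩, ⟨0, hk⟩)), p3, hP1, ?_, fun _ => hp3⟩
      rintro ⟨x, y, hxy, hx, hy, h⟩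
      exact absurd h (hP2 x y hxy hx hy)
  let c' : Sym2 V → Fin D := fun e => if he : e ∈ G.edgeSet then c ⟨e, he⟩ else ⟨0, hD'⟩
  have hc' : ∀ x y (h : G.Adj x y), c' s(x, y) = c ⟨s(x, y), h⟩ := fun x y h => dif_pos h
  have hcd : IsDistS G c' := by
    intro φ hφ
    apply hc φ
    rintro ⟨e, he⟩
    induction e using Sym2.ind with
    | _ x y =>
      have hxy : G.Adj x y := he
      have h2 : G.Adj (φ x) (φ y) := φ.map_adj_iff.2 hxy
      have h3 := hφ x y hxy
      rw [hc' _ _ h2, hc' _ _ hxy] at h3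
      exact h3
  refine hasDist_of_codes hk hstar hV c' hcd m P (fun α hα x y _ _ _ => hP α hα x y)
    p0 p3 p1 p2 ?_ ?_ ?_ ?_ f g hfg
  · intro x y x' y' h h' hx hy hx' hy' hm _ hp
    rw [hc' _ _ h, hc' _ _ h'] at hp ⊢
    exact hp0 ⟨x, y, h, hx, hy, hm⟩ ⟨_, twinnedEnds_mk_zero h' hx' hy', rfl⟩
      ⟨_, twinnedEnds_mk_zero h hx hy, rfl⟩ hp
  · intro x y x' y' h h' hx hy hx' hy' hm _ hp
    rw [hc' _ _ h, hc' _ _ h'] at hp ⊢
    exact hp3 ⟨x, y, h, hx, hy, hm⟩ ⟨_, twinnedEnds_mk_zero h' hx' hy', rfl⟩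
      ⟨_, twinnedEnds_mk_zero h hx hy, rfl⟩ hp
  · intro x y x' y' h h' hx hy hx' hy' hp
    rw [hc' _ _ h, hc' _ _ h'] at hp ⊢
    exact hp1 ⟨_, twinnedEnds_mk_one h' hx' hy', rfl⟩ ⟨_, twinnedEnds_mk_one h hx hy, rfl⟩ hp
  · intro x y x' y' h h' hx hy hx' hy' hp
    rw [hc' _ _ h, hc' _ _ h'] at hp ⊢
    exact hp2 ⟨_, twinnedEnds_mk_two h' hx' hy', rfl⟩ ⟨_, twinnedEnds_mk_two h hx hy, rfl⟩ hp

lemma paletteSize_le (G : SimpleGraph V) {D : ℕ} (c : G.edgeSet → Fin D) (i : ℕ) :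
    paletteSize G c i ≤ D := by
  have h := Set.ncard_le_ncard (Set.subset_univ (c '' {e | twinnedEnds G e = i}))
    (Set.finite_univ)
  rw [Set.ncard_univ, Nat.card_eq_fintype_card, Fintype.card_fin] at h
  exact h

/-- **The twin-free bound.** -/
theorem distIndex_mycielskian_le_of_twinFree [Fintype V] {G : SimpleGraph V} (hG : G.Connected)
    (hV : 3 ≤ Fintype.card V) (htf : ∀ x y, Twin G x y → x = y) {k : ℕ} (hk : 0 < k)
    (hkD : 2 * distIndex G ≤ k ^ 2 * (k + 1) ∨ HasMarking G k ∧ distIndex G ≤ k ^ 3) :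
    distIndex (mycielskian G) ≤ k := by
  classical
  have hnT : ∀ x, ¬ HasTwin G x := by
    rintro x ⟨y, hy, hxy⟩
    exact hy (htf x y hxy).symm
  obtain ⟨hD, c, hc⟩ := distIndex_spec hG hV
  have hzero : ∀ i, i ≠ 0 → paletteSize G c i = 0 := by
    intro i hi
    have : {e : G.edgeSet | twinnedEnds G e = i} = ∅ := by
      ext ⟨e, he⟩
      induction e using Sym2.ind with
      | _ x y =>
        simp only [Set.mem_ofPred_eq, Set.mem_empty_iff_false, iff_false]
        rw [twinnedEnds_mk_zero he (hnT x) (hnT y)]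
        exact hi.symm
    rw [paletteSize, this, Set.image_empty, Set.ncard_empty]
  have h0 := paletteSize_le G c 0
  apply distIndex_le hk
  refine distIndex_mycielskian_le_of_palettes hV (not_isStar_of_twinFree hG hV htf) hk c hc
    ?_ (by rw [hzero 1 one_ne_zero]; exact Nat.zero_le _)
    (by rw [hzero 2 two_ne_zero]; exact Nat.zero_le _) ?_
  · rcases hkD with h | ⟨hcol, h⟩
    · left
      omega
    · right
      exact ⟨hcol, h0.trans h⟩
  · intro x
    have : {y | Twin G x y} = {x} := by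
      ext y
      simp only [Set.mem_ofPred_eq, Set.mem_singleton_iff]
      constructor
      · intro h; exact (htf x y h).symm
      · rintro rfl; exact Twin.refl G _
    rw [this, Set.ncard_singleton]
    exact Nat.one_le_pow _ _ hk

end Pool.Agent.Lib.MP_da4765_co
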