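import Pool.Agent.Lib.MP_da4765_co.Wind

/-!
# The threshold `k ^ 3` is optimal
-/

namespace Pool.Agent.Lib.MP_da4765_co

/-- The edges of one blade. -/
abbrev Blade (h : ℕ) : Type := Fin h ⊕ {p : Fin h × Fin h // p.1 ≤ p.2}

lemma card_blade (n : ℕ) : n * (2 * n) ≤ Fintype.card (Blade (2 * n)) := by
  classical
  have h1 : Fintype.card (Fin (2 * n) × Fin (2 * n)) ≤
      Fintype.card ({p : Fin (2 * n) × Fin (2 * n) // p.1 ≤ p.2} ⊕
        {p : Fin (2 * n) × Fin (2 * n) // p.1 ≤ p.2}) := by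
    apply Fintype.card_le_of_injective
      (fun p => if hp : p.1 ≤ p.2 then Sum.inl ⟨p, hp⟩
        else Sum.inr ⟨(p.2, p.1), (not_le.1 hp).le⟩)
    rintro ⟨p1, p2⟩ ⟨q1, q2⟩ hpq
    by_cases hp : p1 ≤ p2 <;> by_cases hq : q1 ≤ q2 <;> simp_all
  rw [Fintype.card_prod, Fintype.card_sum, Fintype.card_fin] at h1
  rw [Fintype.card_sum, Fintype.card_fin]
  nlinarith

/-- The colouring of the windmill: the blade `σ` is coloured by `σ`. -/
def wcol {D h : ℕ} (hD : 0 < D) : WVert (Blade h → Fin D) h → WVert (Blade h → Fin D) h → Fin D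
  | .r, .a σ i => σ (Sum.inl i)
  | .a σ i, .r => σ (Sum.inl i)
  | .a σ i, .b _ j => if hij : i ≤ j then σ (Sum.inr ⟨(i, j), hij⟩) else ⟨0, hD⟩
  | .b _ j, .a σ i => if hij : i ≤ j then σ (Sum.inr ⟨(i, j), hij⟩) else ⟨0, hD⟩
  | _, _ => ⟨0, hD⟩

lemma wcol_comm {D h : ℕ} (hD : 0 < D) (p q : WVert (Blade h → Fin D) h) :
    wcol hD p q = wcol hD q p := by
  cases p <;> cases q <;> rfl

lemma windmill_hasDist {D h : ℕ} (hD : 2 ≤ D) (hh : 2 ≤ h) :
    HasDist (windmill (Blade h → Fin D) h) D := by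
  classical
  have hD0 : 0 < D := by omega
  refine hasDist_of_sym (Sym2.lift ⟨wcol hD0, wcol_comm hD0⟩) ?_
  intro φ hφ
  have hI : 2 ≤ Fintype.card (Blade h → Fin D) := by
    rw [Fintype.card_fun, Fintype.card_fin]
    have : 1 ≤ Fintype.card (Blade h) := by
      rw [Fintype.card_sum, Fintype.card_fin]; omega
    calc 2 ≤ D := hD
      _ = D ^ 1 := (pow_one D).symm
      _ ≤ D ^ Fintype.card (Blade h) := Nat.pow_le_pow_right hD0 this
  obtain ⟨τ, hr, ha, hb⟩ := windmill_aut hI hh φ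
  have hcol : ∀ p q, (windmill (Blade h → Fin D) h).Adj p q →
      wcol hD0 (φ p) (φ q) = wcol hD0 p q := hφ
  have hτ : ∀ σ, τ σ = σ := by
    intro σ
    funext t
    rcases t with i | ⟨⟨i, j⟩, hij⟩
    · have h1 := hcol .r (.a σ i) (by simp)
      rw [hr, ha] at h1
      exact h1
    · have hij' : i ≤ j := hij
      have h1 := hcol (.a σ i) (.b σ j) (by simpa using hij')
      rw [ha, hb] at h1
      simp only [wcol, dif_pos hij'] at h1
      exact h1
  intro p
  cases p with
  | r => exact hr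
  | a σ i => rw [ha, hτ]
  | b σ j => rw [hb, hτ]

/-- The permutation of the windmill induced by a permutation of the blades. -/
def bladePerm {I : Type} {h : ℕ} (τ : I ≃ I) : WVert I h ≃ WVert I h where
  toFun p := match p with
    | .r => .r
    | .a σ i => .a (τ σ) i
    | .b σ i => .b (τ σ) i
  invFun p := match p with
    | .r => .r
    | .a σ i => .a (τ.symm σ) i
    | .b σ i => .b (τ.symm σ) i
  left_inv p := by cases p <;> simp
  right_inv p := by cases p <;> simp

/-- The permutation of the Mycielskian induced by a permutation. -/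
def mperm {V : Type*} (f : V ≃ V) : MVert V ≃ MVert V where
  toFun p := match p with
    | .v x => .v (f x)
    | .u x => .u (f x)
    | .w => .w
  invFun p := match p with
    | .v x => .v (f.symm x)
    | .u x => .u (f.symm x)
    | .w => .w
  left_inv p := by cases p <;> simp
  right_inv p := by cases p <;> simp

lemma adj_bladePerm {I : Type} {h : ℕ} (τ : I ≃ I) (x y : WVert I h) :
    (windmill I h).Adj (bladePerm τ x) (bladePerm τ y) ↔ (windmill I h).Adj x y := by
  cases x <;> cases y <;> simp [bladePerm]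

/-- The induced automorphism of the Mycielskian of the windmill. -/
def bladeIso {I : Type} {h : ℕ} (τ : I ≃ I) :
    mycielskian (windmill I h) ≃g mycielskian (windmill I h) where
  toEquiv := mperm (bladePerm τ)
  map_rel_iff' := by
    intro p q
    cases p <;> cases q <;> simp [mperm, adj_bladePerm]

/-- The colours of the edges of the Mycielskian that belong to one blade. -/
def bladeCols {I : Type} {h k : ℕ} (c : Sym2 (MVert (WVert I h)) → Fin k) (σ : I) :
    (((Fin h ⊕ Fin h) ⊕ (Blade h ⊕ Blade h ⊕ Blade h)) → Fin k)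
  | Sum.inl (Sum.inl i) => c s(.w, .u (.a σ i))
  | Sum.inl (Sum.inr j) => c s(.w, .u (.b σ j))
  | Sum.inr (Sum.inl (Sum.inl i)) => c s(.v .r, .v (.a σ i))
  | Sum.inr (Sum.inl (Sum.inr p)) => c s(.v (.a σ p.1.1), .v (.b σ p.1.2))
  | Sum.inr (Sum.inr (Sum.inl (Sum.inl i))) => c s(.u .r, .v (.a σ i))
  | Sum.inr (Sum.inr (Sum.inl (Sum.inr p))) => c s(.u (.a σ p.1.1), .v (.b σ p.1.2))
  | Sum.inr (Sum.inr (Sum.inr (Sum.inl i))) => c s(.v .r, .u (.a σ i))
  | Sum.inr (Sum.inr (Sum.inr (Sum.inr p))) => c s(.v (.a σ p.1.1), .u (.b σ p.1.2))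

lemma not_hasDist_windmill {I : Type} [Fintype I] {h k : ℕ} (hk : 0 < k) (hh : 0 < h)
    (hcard : k ^ (2 * h + 3 * Fintype.card (Blade h)) < Fintype.card I) :
    ¬ HasDist (mycielskian (windmill I h)) k := by
  classical
  intro hd
  obtain ⟨c, hc⟩ := sym_of_hasDist hk hd
  have h1 : ¬ Function.Injective (bladeCols (h := h) c) := by
    intro hinj
    have h2 := Fintype.card_le_of_injective _ hinj
    rw [Fintype.card_fun] at h2
    simp only [Fintype.card_sum, Fintype.card_fin] at h2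
    have h3 : Fintype.card (Blade h) = h + Fintype.card {p : Fin h × Fin h // p.1 ≤ p.2} := by
      rw [Fintype.card_sum, Fintype.card_fin]
    rw [h3] at hcard
    have h4 : 2 * h + 3 * (h + Fintype.card {p : Fin h × Fin h // p.1 ≤ p.2}) =
      h + h + (h + Fintype.card {p : Fin h × Fin h // p.1 ≤ p.2} +
        (h + Fintype.card {p : Fin h × Fin h // p.1 ≤ p.2} +
          (h + Fintype.card {p : Fin h × Fin h // p.1 ≤ p.2}))) := by ring
    rw [h4] at hcard
    omega
  simp only [Function.Injective] at h1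
  push Not at h1
  obtain ⟨s, t, hst, hne⟩ := h1
  have hτ : ∀ σ, bladeCols (h := h) c (Equiv.swap s t σ) = bladeCols c σ := by
    intro σ
    by_cases h1 : σ = s
    · subst h1; rw [Equiv.swap_apply_left, hst]
    by_cases h2 : σ = t
    · subst h2; rw [Equiv.swap_apply_right, hst]
    rw [Equiv.swap_apply_of_ne_of_ne h1 h2]
  have e1 : ∀ σ i, c s(.w, .u (.a (Equiv.swap s t σ) i)) = c s(.w, .u (.a σ i)) :=
    fun σ i => congrFun (hτ σ) (Sum.inl (Sum.inl i))
  have e2 : ∀ σ i, c s(.w, .u (.b (Equiv.swap s t σ) i)) = c s(.w, .u (.b σ i)) :=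
    fun σ i => congrFun (hτ σ) (Sum.inl (Sum.inr i))
  have e3 : ∀ σ i, c s(.v .r, .v (.a (Equiv.swap s t σ) i)) = c s(.v .r, .v (.a σ i)) :=
    fun σ i => congrFun (hτ σ) (Sum.inr (Sum.inl (Sum.inl i)))
  have e4 : ∀ σ i j, i ≤ j → c s(.v (.a (Equiv.swap s t σ) i), .v (.b (Equiv.swap s t σ) j)) =
      c s(.v (.a σ i), .v (.b σ j)) :=
    fun σ i j hij => congrFun (hτ σ) (Sum.inr (Sum.inl (Sum.inr ⟨(i, j), hij⟩)))
  have e5 : ∀ σ i, c s(.u .r, .v (.a (Equiv.swap s t σ) i)) = c s(.u .r, .v (.a σ i)) :=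
    fun σ i => congrFun (hτ σ) (Sum.inr (Sum.inr (Sum.inl (Sum.inl i))))
  have e6 : ∀ σ i j, i ≤ j → c s(.u (.a (Equiv.swap s t σ) i), .v (.b (Equiv.swap s t σ) j)) =
      c s(.u (.a σ i), .v (.b σ j)) :=
    fun σ i j hij => congrFun (hτ σ) (Sum.inr (Sum.inr (Sum.inl (Sum.inr ⟨(i, j), hij⟩))))
  have e7 : ∀ σ i, c s(.v .r, .u (.a (Equiv.swap s t σ) i)) = c s(.v .r, .u (.a σ i)) :=
    fun σ i => congrFun (hτ σ) (Sum.inr (Sum.inr (Sum.inr (Sum.inl i))))
  have e8 : ∀ σ i j, i ≤ j → c s(.v (.a (Equiv.swap s t σ) i), .u (.b (Equiv.swap s t σ) j)) =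
      c s(.v (.a σ i), .u (.b σ j)) :=
    fun σ i j hij => congrFun (hτ σ) (Sum.inr (Sum.inr (Sum.inr (Sum.inr ⟨(i, j), hij⟩))))
  have hcol : ∀ p q, (mycielskian (windmill I h)).Adj p q →
      c s(bladeIso (Equiv.swap s t) p, bladeIso (Equiv.swap s t) q) = c s(p, q) := by
    intro p q hpq
    change c s(mperm (bladePerm (Equiv.swap s t)) p, mperm (bladePerm (Equiv.swap s t)) q) = _
    cases p with
    | w =>
      cases q with
      | w => simp at hpq
      | v y => simp at hpq
      | u y =>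
        cases y with
        | r => rfl
        | a σ i => exact e1 σ i
        | b σ i => exact e2 σ i
    | v x =>
      cases q with
      | w => simp at hpq
      | v y =>
        rw [adj_vv] at hpq
        cases x <;> cases y <;> try simp only [w_rr, w_rb, w_br, w_aa, w_bb, w_ab, w_ba] at hpq
        · exact e3 _ _
        · rw [Sym2.eq_swap, Sym2.eq_swap (b := MVert.v WVert.r)]; exact e3 _ _
        · obtain ⟨rfl, hij⟩ := hpq; exact e4 _ _ _ hij
        · obtain ⟨rfl, hij⟩ := hpq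
          rw [Sym2.eq_swap, Sym2.eq_swap (a := MVert.v (WVert.b _ _))]; exact e4 _ _ _ hij
      | u y =>
        rw [adj_vu] at hpq
        cases x <;> cases y <;> try simp only [w_rr, w_rb, w_br, w_aa, w_bb, w_ab, w_ba] at hpq
        · exact e7 _ _
        · rw [Sym2.eq_swap, Sym2.eq_swap (b := MVert.u WVert.r)]; exact e5 _ _
        · obtain ⟨rfl, hij⟩ := hpq; exact e8 _ _ _ hij
        · obtain ⟨rfl, hij⟩ := hpq
          rw [Sym2.eq_swap, Sym2.eq_swap (a := MVert.v (WVert.b _ _))]; exact e6 _ _ _ hij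
    | u x =>
      cases q with
      | w =>
        rw [Sym2.eq_swap, Sym2.eq_swap (b := MVert.w)]
        cases x with
        | r => rfl
        | a σ i => exact e1 σ i
        | b σ i => exact e2 σ i
      | u y => simp at hpq
      | v y =>
        rw [adj_uv] at hpq
        cases x <;> cases y <;> try simp only [w_rr, w_rb, w_br, w_aa, w_bb, w_ab, w_ba] at hpq
        · exact e5 _ _
        · rw [Sym2.eq_swap, Sym2.eq_swap (b := MVert.v WVert.r)]; exact e7 _ _
        · obtain ⟨rfl, hij⟩ := hpq; exact e6 _ _ _ hij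
        · obtain ⟨rfl, hij⟩ := hpq
          rw [Sym2.eq_swap, Sym2.eq_swap (a := MVert.u (WVert.b _ _))]; exact e8 _ _ _ hij
  have h2 := hc (bladeIso (Equiv.swap s t)) hcol (.v (.a s ⟨0, hh⟩))
  have h3 : bladeIso (Equiv.swap s t) (.v (.a s ⟨0, hh⟩)) =
      (MVert.v (WVert.a t ⟨0, hh⟩) : MVert (WVert I h)) := by
    change MVert.v (WVert.a (Equiv.swap s t s) _) = _
    rw [Equiv.swap_apply_left]
  rw [h3] at h2
  cases h2
  exact hne rfl

/-- Counting. -/
lemma count_lt {k : ℕ} (hk : 0 < k) :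
    k ^ (2 * (2 * k ^ 5) + 3 * Fintype.card (Blade (2 * k ^ 5))) <
      (k ^ 3 + 1) ^ Fintype.card (Blade (2 * k ^ 5)) := by
  set n := k ^ 5 with hn
  have hn0 : 0 < n := Nat.pow_pos hk
  have hP := card_blade n
  obtain ⟨r, hr⟩ := Nat.exists_eq_add_of_le hP
  rw [hr]
  -- one factor
  have h1 : k ^ (3 * n + 2) < (k ^ 3 + 1) ^ n := by
    obtain ⟨m, hm⟩ : ∃ m, n = m + 1 := ⟨n - 1, by omega⟩
    have h2 : (k ^ 3) ^ (m + 1) + (m + 1) * (k ^ 3) ^ m ≤ (k ^ 3 + 1) ^ (m + 1) := by
      clear * -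
      generalize k ^ 3 = x
      induction m with
      | zero => simp
      | succ m ih =>
        calc x ^ (m + 1 + 1) + (m + 1 + 1) * x ^ (m + 1)
            ≤ (x ^ (m + 1) + (m + 1) * x ^ m) * (x + 1) := by
              have : x ^ (m + 1) = x ^ m * x := pow_succ _ _
              have h3 : x ^ (m + 1 + 1) = x ^ m * x * x := by ring
              rw [this, h3]
              have : 0 ≤ x ^ m := Nat.zero_le _
              nlinarith
          _ ≤ (x + 1) ^ (m + 1) * (x + 1) := Nat.mul_le_mul_right _ ih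
          _ = (x + 1) ^ (m + 1 + 1) := (pow_succ _ _).symm
    have h4 : k ^ (3 * n + 2) = (m + 1) * (k ^ 3) ^ m := by
      rw [← hm, hn]
      have : 3 * k ^ 5 + 2 = 5 + 3 * m := by
        rw [← hn, hm]; ring
      rw [this, pow_add, pow_mul]
    have h5 : 0 < (k ^ 3) ^ (m + 1) := by positivity
    rw [h4, hm]
    omega
  have h2 : k ^ (3 * r) ≤ (k ^ 3 + 1) ^ r := by
    rw [pow_mul]
    exact Nat.pow_le_pow_left (Nat.le_succ _) _
  have h2n : 2 * n ≠ 0 := by omega
  have h3 : k ^ ((3 * n + 2) * (2 * n)) < (k ^ 3 + 1) ^ (n * (2 * n)) := by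
    rw [pow_mul k (3 * n + 2) (2 * n), pow_mul (k ^ 3 + 1) n (2 * n)]
    exact Nat.pow_lt_pow_left h1 h2n
  calc k ^ (2 * (2 * n) + 3 * (n * (2 * n) + r))
      = k ^ ((3 * n + 2) * (2 * n)) * k ^ (3 * r) := by
        rw [← pow_add]; congr 1; ring
    _ < (k ^ 3 + 1) ^ (n * (2 * n)) * (k ^ 3 + 1) ^ r := by
        apply Nat.mul_lt_mul_of_lt_of_le h3 h2
        positivity
    _ = (k ^ 3 + 1) ^ (n * (2 * n) + r) := (pow_add _ _ _).symm

/-- **Optimality.** For every `k ≥ 2` there is a connected bipartite twin-free graph with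
`D'(G) = k ^ 3 + 1` and `D'(μ(G)) = k + 1`. -/
theorem exists_windmill {k : ℕ} (hk : 2 ≤ k) :
    ∃ (V : Type) (_ : Fintype V) (G : SimpleGraph V), G.Connected ∧ 3 ≤ Fintype.card V ∧
      G.Colorable 2 ∧ (∀ x y, Twin G x y → x = y) ∧ distIndex G = k ^ 3 + 1 ∧
      distIndex (mycielskian G) = k + 1 := by
  classical
  have hk0 : 0 < k := by omega
  have hn : 0 < k ^ 5 := Nat.pow_pos hk0
  set h := 2 * k ^ 5 with hh
  have hh2 : 2 ≤ h := by omega
  let I : Type := Blade h → Fin (k ^ 3 + 1)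
  have hcard : Fintype.card I = (k ^ 3 + 1) ^ Fintype.card (Blade h) := by
    rw [Fintype.card_fun, Fintype.card_fin]
  have hlt : k ^ (2 * h + 3 * Fintype.card (Blade h)) < Fintype.card I := by
    rw [hcard]; exact count_lt hk0
  have hI : Nontrivial I := by
    apply Fintype.one_lt_card_iff_nontrivial.1
    exact lt_of_le_of_lt (Nat.one_le_pow _ _ hk0) hlt
  have hconn : (windmill I h).Connected := windmill_connected (by omega)
  have hV : 3 ≤ Fintype.card (WVert I h) := windmill_card (by omega)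
  have htf := windmill_twinFree (I := I) (h := h) hI (by omega)
  have h1 : distIndex (windmill I h) ≤ k ^ 3 + 1 :=
    distIndex_le (by omega) (windmill_hasDist (by have := Nat.pow_pos (n := 3) hk0; omega) hh2)
  have hnot := not_hasDist_windmill (I := I) (h := h) hk0 (by omega) hlt
  obtain ⟨h2, h3⟩ := distIndex_mycielskian_spec hconn hV
  have h4 : k < distIndex (mycielskian (windmill I h)) := by
    by_contra hcon
    exact hnot (h3.mono (by omega))
  have h5 : distIndex (windmill I h) = k ^ 3 + 1 := by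
    apply le_antisymm h1
    by_contra hcon
    have h6 := distIndex_mycielskian_le_of_twinFree hconn hV htf hk0
      (Or.inr ⟨hasMarking_of_colorable (windmill_colorable k hk), by omega⟩)
    omega
  refine ⟨WVert I h, inferInstance, windmill I h, hconn, hV, windmill_colorable 2 le_rfl, htf,
    h5, ?_⟩
  apply le_antisymm _ h4
  apply distIndex_mycielskian_le_of_twinFree hconn hV htf (by omega)
  right
  refine ⟨hasMarking_of_colorable (windmill_colorable (k + 1) (by omega)), ?_⟩
  rw [h5]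
  nlinarith [Nat.pow_pos (n := 2) hk0, sq_nonneg k]

end Pool.Agent.Lib.MP_da4765_co
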