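import Pool.Agent.Lib.MP_da4765_co.Palettes

/-!
# Stars
-/

namespace Pool.Agent.Lib.MP_da4765_co

variable {V : Type*}

/-- The exchange of the two halves of the Mycielskian of a star. -/
def starMap [DecidableEq V] (z : V) (σ : V ≃ V) : MVert V → MVert V
  | .v x => if x = z then .v z else .u (σ.symm x)
  | .u x => if x = z then .w else .v (σ x)
  | .w => .u z

lemma starMap_invol [DecidableEq V] (z : V) (σ : V ≃ V) (hσ : σ z = z) :
    Function.Involutive (starMap z σ) := by
  have hσ' : σ.symm z = z := by rw [Equiv.symm_apply_eq, hσ]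
  have h1 : ∀ x, σ x = z ↔ x = z := fun x =>
    ⟨fun h => σ.injective (h.trans hσ.symm), fun h => by rw [h, hσ]⟩
  have h2 : ∀ x, σ.symm x = z ↔ x = z := fun x =>
    ⟨fun h => σ.symm.injective (h.trans hσ'.symm), fun h => by rw [h, hσ']⟩
  intro p
  cases p with
  | v x =>
    by_cases hx : x = z
    · simp [starMap, hx]
    · simp [starMap, hx, h2]
  | u x =>
    by_cases hx : x = z
    · simp [starMap, hx]
    · simp [starMap, hx, h1]
  | w => simp [starMap]

lemma starMap_adj [DecidableEq V] {G : SimpleGraph V} {z : V} (hz : IsStar G z) (σ : V ≃ V)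
    (hσ : σ z = z) (p q : MVert V) (h : (mycielskian G).Adj p q) :
    (mycielskian G).Adj (starMap z σ p) (starMap z σ q) := by
  have hσ' : σ.symm z = z := by rw [Equiv.symm_apply_eq, hσ]
  have h1 : ∀ x, σ x = z ↔ x = z := fun x =>
    ⟨fun h => σ.injective (h.trans hσ.symm), fun h => by rw [h, hσ]⟩
  have h2 : ∀ x, σ.symm x = z ↔ x = z := fun x =>
    ⟨fun h => σ.symm.injective (h.trans hσ'.symm), fun h => by rw [h, hσ']⟩
  have hzl : ∀ x, x ≠ z → G.Adj z x := fun x hx => (hz z x).2 ⟨hx.symm, Or.inl rfl⟩
  have hcases : ∀ x y, G.Adj x y → (x = z ∧ y ≠ z) ∨ (x ≠ z ∧ y = z) := by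
    intro x y hxy
    obtain ⟨h1, h2 | h2⟩ := (hz x y).1 hxy
    · exact Or.inl ⟨h2, fun e => h1 (h2.trans e.symm)⟩
    · exact Or.inr ⟨fun e => h1 (e.trans h2.symm), h2⟩
  cases p with
  | w =>
    cases q with
    | w => simp at h
    | v y => simp at h
    | u y =>
      by_cases hy : y = z
      · simp [starMap, hy]
      · simp only [starMap, hy, if_false, adj_uv]
        exact hzl _ (fun e => hy ((h1 y).1 e))
  | v x =>
    cases q with
    | w => simp at h
    | v y =>
      rw [adj_vv] at h
      rcases hcases x y h with ⟨hx, hy⟩ | ⟨hx, hy⟩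
      · simp only [starMap, hx, hy, if_true, if_false, adj_vu]
        exact hzl _ (fun e => hy ((h2 y).1 e))
      · simp only [starMap, hx, hy, if_true, if_false, adj_uv]
        exact (hzl _ (fun e => hx ((h2 x).1 e))).symm
    | u y =>
      rw [adj_vu] at h
      rcases hcases x y h with ⟨hx, hy⟩ | ⟨hx, hy⟩
      · simp only [starMap, hx, hy, if_true, if_false, adj_vv]
        exact hzl _ (fun e => hy ((h1 y).1 e))
      · simp only [starMap, hx, hy, if_true, if_false, adj_uw]
  | u x =>
    cases q with
    | w =>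
      by_cases hx : x = z
      · simp [starMap, hx]
      · simp only [starMap, hx, if_false, adj_vu]
        exact (hzl _ (fun e => hx ((h1 x).1 e))).symm
    | u y => simp at h
    | v y =>
      rw [adj_uv] at h
      rcases hcases x y h with ⟨hx, hy⟩ | ⟨hx, hy⟩
      · simp only [starMap, hx, hy, if_true, if_false, adj_wu]
      · simp only [starMap, hx, hy, if_true, if_false, adj_vv]
        exact (hzl _ (fun e => hx ((h1 x).1 e))).symm

/-- The Mycielskian of a star with `n` vertices needs `n ≤ k ^ 2`. -/
lemma card_le_of_hasDist_star [Fintype V] {G : SimpleGraph V} {k : ℕ} (hk : 0 < k) {z : V}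
    (hz : IsStar G z) (h : HasDist (mycielskian G) k) : Fintype.card V ≤ k ^ 2 := by
  classical
  obtain ⟨c, hc⟩ := sym_of_hasDist hk h
  by_contra hcon
  have hzl : ∀ x, x ≠ z → G.Adj x z := fun x hx => (hz x z).2 ⟨hx, Or.inr rfl⟩
  have honly : ∀ x y, x ≠ z → G.Adj x y → y = z := by
    intro x y hx hxy
    obtain ⟨h1, h2 | h2⟩ := (hz x y).1 hxy
    · exact absurd h2 hx
    · exact h2
  have htw : ∀ x y, x ≠ z → y ≠ z → Twin G x y := by
    intro x y hx hy t
    constructor
    · intro h1; rw [honly x t hx h1]; exact hzl y hy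
    · intro h1; rw [honly y t hy h1]; exact hzl x hx
  let L := {x : V // x ≠ z}
  let U : L → Fin k × Fin k := fun x => (c s(.u x.1, .v z), c s(.u x.1, .w))
  let W : L → Fin k × Fin k := fun x => (c s(.v x.1, .v z), c s(.v x.1, .u z))
  have hU : Function.Injective U := by
    rintro ⟨x, hx⟩ ⟨y, hy⟩ hxy
    have h1 : c s(.u x, .v z) = c s(.u y, .v z) := congrArg Prod.fst hxy
    have h2 : c s(.u x, .w) = c s(.u y, .w) := congrArg Prod.snd hxy
    have h3 : Twin (mycielskian G) (.u x) (.u y) := by
      intro p
      cases p with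
      | v t => simpa using htw x y hx hy t
      | u t => simp
      | w => simp
    have h4 : (MVert.u x : MVert V) = .u y := by
      apply hc.twin_eq h3
      intro p hp
      cases p with
      | v t => rw [honly x t hx (by simpa using hp)]; exact h1
      | u t => simp at hp
      | w => exact h2
    exact Subtype.ext (u_inj h4)
  have hW : Function.Injective W := by
    rintro ⟨x, hx⟩ ⟨y, hy⟩ hxy
    have h1 : c s(.v x, .v z) = c s(.v y, .v z) := congrArg Prod.fst hxy
    have h2 : c s(.v x, .u z) = c s(.v y, .u z) := congrArg Prod.snd hxy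
    have h3 : Twin (mycielskian G) (.v x) (.v y) := by
      intro p
      cases p with
      | v t => simpa using htw x y hx hy t
      | u t => simpa using htw x y hx hy t
      | w => simp
    have h4 : (MVert.v x : MVert V) = .v y := by
      apply hc.twin_eq h3
      intro p hp
      cases p with
      | v t => rw [honly x t hx (by simpa using hp)]; exact h1
      | u t => rw [honly x t hx (by simpa using hp)]; exact h2
      | w => simp at hp
    exact Subtype.ext (v_inj h4)
  have hcardL : Fintype.card L = Fintype.card V - 1 := by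
    rw [Fintype.card_subtype_compl, Fintype.card_subtype_eq]
  have hL : Fintype.card (Fin k × Fin k) ≤ Fintype.card L := by
    rw [Fintype.card_prod, Fintype.card_fin, hcardL, ← sq]
    omega
  have hUb : Function.Bijective U := by
    rw [Fintype.bijective_iff_injective_and_card]
    exact ⟨hU, le_antisymm (Fintype.card_le_of_injective U hU) hL⟩
  have hWb : Function.Bijective W := by
    rw [Fintype.bijective_iff_injective_and_card]
    exact ⟨hW, le_antisymm (Fintype.card_le_of_injective W hW) hL⟩
  let τ : L ≃ L := (Equiv.ofBijective U hUb).trans (Equiv.ofBijective W hWb).symm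
  have hτ : ∀ x, W (τ x) = U x := by
    intro x
    change (Equiv.ofBijective W hWb) ((Equiv.ofBijective W hWb).symm (U x)) = U x
    rw [Equiv.apply_symm_apply]
  let σ : V ≃ V := Equiv.Perm.ofSubtype (p := fun x => x ≠ z) τ
  have hσz : σ z = z := Equiv.Perm.ofSubtype_apply_of_not_mem (p := fun x => x ≠ z) τ (by simp)
  have hσ : ∀ x (hx : x ≠ z), σ x = (τ ⟨x, hx⟩).1 := fun x hx =>
    Equiv.Perm.ofSubtype_apply_of_mem (p := fun x => x ≠ z) τ hx
  have hσne : ∀ x, x ≠ z → σ x ≠ z := fun x hx e => hx (σ.injective (e.trans hσz.symm))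
  have k1 : ∀ x, x ≠ z → c s(.v (σ x), .v z) = c s(.u x, .v z) := by
    intro x hx
    rw [hσ x hx]
    exact congrArg Prod.fst (hτ ⟨x, hx⟩)
  have k2 : ∀ x, x ≠ z → c s(.v (σ x), .u z) = c s(.u x, .w) := by
    intro x hx
    rw [hσ x hx]
    exact congrArg Prod.snd (hτ ⟨x, hx⟩)
  have hinv := starMap_invol z σ hσz
  let ψ : mycielskian G ≃g mycielskian G :=
    { toEquiv := hinv.toPerm
      map_rel_iff' := by
        intro p q
        change (mycielskian G).Adj (starMap z σ p) (starMap z σ q) ↔ _
        refine ⟨fun h => ?_, starMap_adj hz σ hσz p q⟩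
        have := starMap_adj hz σ hσz _ _ h
        rwa [hinv, hinv] at this }
  have hhalf : ∀ p q, (mycielskian G).Adj p q → (∃ x, p = .u x ∧ x ≠ z) →
      c s(starMap z σ p, starMap z σ q) = c s(p, q) := by
    rintro p q hpq ⟨x, rfl, hx⟩
    cases q with
    | w => simp only [starMap, hx, if_false]; exact k2 x hx
    | u y => simp at hpq
    | v y =>
      have hy : y = z := honly x y hx (by simpa using hpq)
      simp only [starMap, hx, hy, if_false, if_true]
      exact k1 x hx
  have hcol : ∀ p q, (mycielskian G).Adj p q → c s(ψ p, ψ q) = c s(p, q) := by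
    intro p q hpq
    change c s(starMap z σ p, starMap z σ q) = c s(p, q)
    by_cases h1 : ∃ x, p = .u x ∧ x ≠ z
    · exact hhalf p q hpq h1
    by_cases h2 : ∃ x, q = .u x ∧ x ≠ z
    · rw [Sym2.eq_swap, Sym2.eq_swap (a := p)]
      exact hhalf q p hpq.symm h2
    by_cases h3 : ∃ x, p = .v x ∧ x ≠ z
    · obtain ⟨x, rfl, hx⟩ := h3
      have h4 := hhalf (starMap z σ (.v x)) (starMap z σ q) (starMap_adj hz σ hσz _ _ hpq)
        ⟨σ.symm x, by simp [starMap, hx], fun e => hx (by
          rw [Equiv.symm_apply_eq, hσz] at e; exact e)⟩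
      rw [hinv, hinv] at h4
      exact h4.symm
    by_cases h4 : ∃ x, q = .v x ∧ x ≠ z
    · obtain ⟨x, rfl, hx⟩ := h4
      have h5 := hhalf (starMap z σ (.v x)) (starMap z σ p) (starMap_adj hz σ hσz _ _ hpq.symm)
        ⟨σ.symm x, by simp [starMap, hx], fun e => hx (by
          rw [Equiv.symm_apply_eq, hσz] at e; exact e)⟩
      rw [hinv, hinv] at h5
      rw [Sym2.eq_swap, Sym2.eq_swap (a := p)]
      exact h5.symm
    push Not at h1 h2 h3 h4
    cases p with
    | v x =>
      obtain rfl : x = z := h3 x rfl
      cases q with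
      | v y => obtain rfl : y = x := h4 y rfl; simp at hpq
      | u y => obtain rfl : y = x := h2 y rfl; simp at hpq
      | w => simp at hpq
    | u x =>
      obtain rfl : x = z := h1 x rfl
      cases q with
      | v y => obtain rfl : y = x := h4 y rfl; simp at hpq
      | u y => simp at hpq
      | w => simp only [starMap, if_true]; rw [Sym2.eq_swap]
    | w =>
      cases q with
      | v y => simp at hpq
      | u y =>
        obtain rfl : y = z := h2 y rfl
        simp only [starMap, if_true]; rw [Sym2.eq_swap]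
      | w => simp at hpq
  have h5 := hc ψ hcol .w
  have h6 : ψ .w = .u z := rfl
  rw [h6] at h5
  cases h5

end Pool.Agent.Lib.MP_da4765_co
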