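import Pool.Agent.Lib.MP_da4765_co.Basic

/-!
# Automorphisms of the Mycielskian
-/

namespace Pool.Agent.Lib.MP_da4765_co

variable {V : Type*}

lemma u_inj : Function.Injective (MVert.u : V → MVert V) := fun a b h => by cases h; rfl

lemma v_inj : Function.Injective (MVert.v : V → MVert V) := fun a b h => by cases h; rfl

section top

variable {G : SimpleGraph V}

/-- An automorphism of the Mycielskian of a graph with at least three vertices does not move
the top vertex to an old vertex. -/
lemma map_w_ne_v [Fintype V] (hV : 3 ≤ Fintype.card V)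
    (φ : mycielskian G ≃g mycielskian G) (i : V) : φ .w ≠ .v i := by
  classical
  intro hw
  -- the preimage of w
  obtain ⟨q, hq⟩ : ∃ q, φ q = .w := φ.surjective .w
  have hadj : ∀ p r, (mycielskian G).Adj (φ p) (φ r) ↔ (mycielskian G).Adj p r :=
    fun p r => φ.map_adj_iff
  obtain ⟨j, rfl⟩ : ∃ j, q = .v j := by
    cases q with
    | v j => exact ⟨j, rfl⟩
    | u j =>
      exfalso
      have h := (hadj .w (.u j)).2 (by simp)
      rw [hw, hq] at h
      simp at h
    | w => rw [hw] at hq; cases hq
  -- the image of the shadow of j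
  have hx1 : (mycielskian G).Adj (φ (.u j)) (.v i) := by
    rw [← hw]; exact (hadj _ _).2 (by simp)
  have hx2 : ∀ p, (mycielskian G).Adj (φ (.u j)) p → p ≠ .v i →
      ∃ l, p = .u l ∧ ¬ G.Adj i l := by
    intro p hp hpi
    obtain ⟨r, rfl⟩ := φ.surjective p
    rw [hadj] at hp
    cases r with
    | v y =>
      have h2 : (mycielskian G).Adj (φ (.v j)) (φ (.v y)) := (hadj _ _).2 (by simpa using hp)
      rw [hq] at h2
      generalize hpp : φ (.v y) = p at *
      cases p with
      | v l => simp at h2
      | u l =>
        refine ⟨l, rfl, fun hil => ?_⟩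
        have h3 : (mycielskian G).Adj (φ .w) (φ (.v y)) := by
          rw [hw, hpp]; simpa using hil
        rw [hadj] at h3
        simp at h3
      | w => simp at h2
    | u y => simp at hp
    | w => exact absurd hw hpi
  have hx3 : ∀ l, ¬ G.Adj i l → (mycielskian G).Adj (φ (.u j)) (.u l) := by
    intro l hl
    obtain ⟨r, hr⟩ := φ.surjective (.u l)
    rw [← hr, hadj]
    have h1 : (mycielskian G).Adj (φ (.v j)) (φ r) := by rw [hq, hr]; simp
    rw [hadj] at h1
    cases r with
    | v y => simpa using h1
    | u y =>
      exfalso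
      have h2 : (mycielskian G).Adj (φ .w) (φ (.u y)) := (hadj _ _).2 (by simp)
      rw [hw, hr] at h2
      exact hl (by simpa using h2)
    | w => simp
  have hx4 := hx3 i (G.irrefl)
  obtain ⟨m, hm⟩ : ∃ m, φ (.u j) = .v m := by
    generalize φ (.u j) = p at *
    cases p with
    | v m => exact ⟨m, rfl⟩
    | u m => simp at hx4
    | w => simp at hx1
  rw [hm] at hx1 hx2 hx3
  have him : G.Adj m i := by simpa using hx1
  have h5 : ∀ y, G.Adj m y → y = i := by
    intro y hy
    by_contra hyi
    obtain ⟨l, hl, _⟩ := hx2 (.v y) (by simpa using hy) (fun h => hyi (by cases h; rfl))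
    cases hl
  have h6 : ∀ l, l ≠ i → G.Adj i l := by
    intro l hl
    by_contra hil
    exact hl (h5 l (by simpa using hx3 l hil))
  -- now count degrees
  have hdeg : (Finset.univ.filter fun p => (mycielskian G).Adj .w p).card =
      (Finset.univ.filter fun p => (mycielskian G).Adj (.v i) p).card := by
    refine Finset.card_bij (fun p _ => φ p) ?_ (fun a _ b _ h => φ.injective h) ?_
    · intro p hp
      simp only [Finset.mem_filter, Finset.mem_univ, true_and] at hp ⊢
      rw [← hw, hadj]; exact hp
    · intro p hp
      simp only [Finset.mem_filter, Finset.mem_univ, true_and] at hp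
      obtain ⟨r, rfl⟩ := φ.surjective p
      refine ⟨r, ?_, rfl⟩
      simp only [Finset.mem_filter, Finset.mem_univ, true_and]
      rw [← hw, hadj] at hp; exact hp
  have h7 : (Finset.univ.filter fun p => (mycielskian G).Adj .w p) =
      (Finset.univ : Finset V).image MVert.u := by
    ext p
    simp only [Finset.mem_filter, Finset.mem_univ, true_and, Finset.mem_image]
    cases p with
    | v x => simp
    | u x => simp
    | w => simp
  have h8 : ((Finset.univ.erase i).image MVert.u ∪
      (Finset.univ.erase i).image MVert.v : Finset (MVert V)) ⊆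
      (Finset.univ.filter fun p => (mycielskian G).Adj (.v i) p) := by
    intro p hp
    simp only [Finset.mem_union, Finset.mem_image, Finset.mem_erase, Finset.mem_univ,
      and_true] at hp
    simp only [Finset.mem_filter, Finset.mem_univ, true_and]
    rcases hp with ⟨a, ha, rfl⟩ | ⟨a, ha, rfl⟩
    · simpa using h6 a ha
    · simpa using h6 a ha
  have h9 := Finset.card_le_card h8
  rw [Finset.card_union_of_disjoint, Finset.card_image_of_injective _ u_inj,
    Finset.card_image_of_injective _ v_inj,
    Finset.card_erase_of_mem (Finset.mem_univ i), Finset.card_univ, ← hdeg, h7,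
    Finset.card_image_of_injective _ u_inj, Finset.card_univ] at h9
  · omega
  · rw [Finset.disjoint_left]
    intro p hp hp'
    simp only [Finset.mem_image, Finset.mem_erase, Finset.mem_univ, and_true] at hp hp'
    obtain ⟨a, _, rfl⟩ := hp
    obtain ⟨b, _, hb⟩ := hp'
    cases hb

/-- If an automorphism of the Mycielskian moves the top vertex to a shadow, then the graph is a
star. -/
lemma star_of_map_w [Fintype V]
    (φ : mycielskian G ≃g mycielskian G) (i : V) (hw : φ .w = .u i) : IsStar G i := by
  classical
  have hadj : ∀ p r, (mycielskian G).Adj (φ p) (φ r) ↔ (mycielskian G).Adj p r :=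
    fun p r => φ.map_adj_iff
  have hdeg : (Finset.univ.filter fun p => (mycielskian G).Adj .w p).card =
      (Finset.univ.filter fun p => (mycielskian G).Adj (.u i) p).card := by
    refine Finset.card_bij (fun p _ => φ p) ?_ (fun a _ b _ h => φ.injective h) ?_
    · intro p hp
      simp only [Finset.mem_filter, Finset.mem_univ, true_and] at hp ⊢
      rw [← hw, hadj]; exact hp
    · intro p hp
      simp only [Finset.mem_filter, Finset.mem_univ, true_and] at hp
      obtain ⟨r, rfl⟩ := φ.surjective p
      refine ⟨r, ?_, rfl⟩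
      simp only [Finset.mem_filter, Finset.mem_univ, true_and]
      rw [← hw, hadj] at hp; exact hp
  have h7 : (Finset.univ.filter fun p => (mycielskian G).Adj .w p) =
      (Finset.univ : Finset V).image MVert.u := by
    ext p
    simp only [Finset.mem_filter, Finset.mem_univ, true_and, Finset.mem_image]
    cases p with
    | v x => simp
    | u x => simp
    | w => simp
  have h8 : (Finset.univ.filter fun p => (mycielskian G).Adj (.u i) p) =
      insert .w ((Finset.univ.filter fun x => G.Adj i x).image MVert.v) := by
    ext p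
    simp only [Finset.mem_filter, Finset.mem_univ, true_and, Finset.mem_image,
      Finset.mem_insert]
    cases p with
    | v x => simp
    | u x => simp
    | w => simp
  have h9 : (Finset.univ.filter fun x => G.Adj i x) = Finset.univ.erase i := by
    apply Finset.eq_of_subset_of_card_le
    · intro x hx
      simp only [Finset.mem_filter, Finset.mem_univ, true_and] at hx
      simp only [Finset.mem_erase, Finset.mem_univ, and_true]
      exact hx.ne'
    · rw [h7, h8, Finset.card_image_of_injective _ u_inj, Finset.card_insert_of_notMem,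
        Finset.card_image_of_injective _ v_inj, Finset.card_univ] at hdeg
      · rw [Finset.card_erase_of_mem (Finset.mem_univ i), Finset.card_univ]
        omega
      · simp
  have h10 : ∀ x, x ≠ i → G.Adj i x := by
    intro x hx
    have : x ∈ Finset.univ.erase i := by simp [hx]
    rw [← h9] at this
    simpa using this
  have h11 : ∀ p r, (mycielskian G).Adj (.u i) p → (mycielskian G).Adj (.u i) r →
      ¬ (mycielskian G).Adj p r := by
    intro p r hp hr hpr
    obtain ⟨p, rfl⟩ := φ.surjective p
    obtain ⟨r, rfl⟩ := φ.surjective r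
    rw [← hw, hadj] at hp hr
    rw [hadj] at hpr
    cases p <;> cases r <;> simp_all
  intro x y
  constructor
  · intro hxy
    refine ⟨hxy.ne, ?_⟩
    by_contra hcon
    rw [not_or] at hcon
    exact h11 (.v x) (.v y) (by simpa using h10 x hcon.1) (by simpa using h10 y hcon.2)
      (by simpa using hxy)
  · rintro ⟨hne, rfl | rfl⟩
    · exact h10 y hne.symm
    · exact (h10 x hne).symm

/-- The data of an automorphism of the Mycielskian that fixes the top vertex. -/
lemma exists_data (φ : mycielskian G ≃g mycielskian G) (hw : φ .w = .w) :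
    ∃ (α : G ≃g G) (β : V ≃ V), (∀ x, φ (.v x) = .v (α x)) ∧ (∀ x, φ (.u x) = .u (β x)) ∧
      ∀ x y, G.Adj x y ↔ G.Adj (β x) (α y) := by
  classical
  have hadj : ∀ p r, (mycielskian G).Adj (φ p) (φ r) ↔ (mycielskian G).Adj p r :=
    fun p r => φ.map_adj_iff
  have hu : ∀ ψ : mycielskian G ≃g mycielskian G, ψ .w = .w → ∀ x, ∃ y, ψ (.u x) = .u y := by
    intro ψ hψ x
    have h1 : (mycielskian G).Adj (ψ .w) (ψ (.u x)) := ψ.map_adj_iff.2 (by simp)
    rw [hψ] at h1
    generalize ψ (.u x) = p at *
    cases p with
    | v y => simp at h1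
    | u y => exact ⟨y, rfl⟩
    | w => simp at h1
  have hv : ∀ ψ : mycielskian G ≃g mycielskian G, ψ .w = .w → ∀ x, ∃ y, ψ (.v x) = .v y := by
    intro ψ hψ x
    have h1 : ¬ (mycielskian G).Adj (ψ .w) (ψ (.v x)) := fun h => by
      have := ψ.map_adj_iff.1 h
      simp at this
    rw [hψ] at h1
    cases hp : ψ (.v x) with
    | v y => exact ⟨y, rfl⟩
    | u y => rw [hp] at h1; simp at h1
    | w =>
      have := ψ.injective (hp.trans hψ.symm)
      cases this
  have hw' : φ.symm .w = .w := by
    have h := φ.symm_apply_apply .w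
    rwa [hw] at h
  choose β hβ using hu φ hw
  choose α hα using hv φ hw
  choose β' hβ' using hu φ.symm hw'
  choose α' hα' using hv φ.symm hw'
  have e1 : ∀ x, α' (α x) = x := by
    intro x
    have h := hα' (α x)
    rw [← hα x, RelIso.symm_apply_apply] at h
    exact (v_inj h).symm
  have e2 : ∀ x, α (α' x) = x := by
    intro x
    have h := hα (α' x)
    rw [← hα' x, RelIso.apply_symm_apply] at h
    exact (v_inj h).symm
  have e3 : ∀ x, β' (β x) = x := by
    intro x
    have h := hβ' (β x)
    rw [← hβ x, RelIso.symm_apply_apply] at h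
    exact (u_inj h).symm
  have e4 : ∀ x, β (β' x) = x := by
    intro x
    have h := hβ (β' x)
    rw [← hβ' x, RelIso.apply_symm_apply] at h
    exact (u_inj h).symm
  refine ⟨⟨⟨α, α', e1, e2⟩, ?_⟩, ⟨β, β', e3, e4⟩, hα, hβ, ?_⟩
  · intro x y
    have := hadj (.v x) (.v y)
    rw [hα, hα] at this
    simpa using this
  · intro x y
    have := hadj (.u x) (.v y)
    rw [hα, hβ] at this
    simpa using this.symm

end top

/-- The colouring of the Mycielskian given by a colouring `a` of the old pairs, `b x y` for the
edge `u x -- v y` and `h x` for the edge `w -- u x`. -/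
def mcol {k : ℕ} (hk : 0 < k) (a : Sym2 V → Fin k) (b : V → V → Fin k) (h : V → Fin k) :
    MVert V → MVert V → Fin k
  | .v x, .v y => a s(x, y)
  | .u x, .v y => b x y
  | .v y, .u x => b x y
  | .u x, .w => h x
  | .w, .u x => h x
  | _, _ => ⟨0, hk⟩

lemma mcol_comm {k : ℕ} (hk : 0 < k) (a : Sym2 V → Fin k) (b : V → V → Fin k)
    (h : V → Fin k) (p q : MVert V) : mcol hk a b h p q = mcol hk a b h q p := by
  cases p <;> cases q <;> simp [mcol, Sym2.eq_swap]

/-- The same colouring on unordered pairs. -/
def scol {k : ℕ} (hk : 0 < k) (a : Sym2 V → Fin k) (b : V → V → Fin k) (h : V → Fin k) :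
    Sym2 (MVert V) → Fin k :=
  Sym2.lift ⟨mcol hk a b h, mcol_comm hk a b h⟩

/-- Criterion for a colouring of the Mycielskian to be distinguishing. -/
lemma isDistS_scol {G : SimpleGraph V} {k : ℕ} (hk : 0 < k) (a : Sym2 V → Fin k)
    (b : V → V → Fin k) (h : V → Fin k)
    (htop : ∀ φ : mycielskian G ≃g mycielskian G,
      (∀ p q, (mycielskian G).Adj p q → mcol hk a b h (φ p) (φ q) = mcol hk a b h p q) →
      φ .w = .w)
    (hab : ∀ (α : G ≃g G) (β : V ≃ V), (∀ x y, G.Adj x y ↔ G.Adj (β x) (α y)) →
      (∀ x y, G.Adj x y → a s(α x, α y) = a s(x, y)) →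
      (∀ x y, G.Adj x y → b (β x) (α y) = b x y) →
      (∀ x, h (β x) = h x) → (∀ x, α x = x) ∧ (∀ x, β x = x)) :
    IsDistS (mycielskian G) (scol hk a b h) := by
  intro φ hφ
  have hφ' : ∀ p q, (mycielskian G).Adj p q →
      mcol hk a b h (φ p) (φ q) = mcol hk a b h p q := fun p q hpq => hφ p q hpq
  have hw := htop φ hφ'
  obtain ⟨α, β, hα, hβ, hαβ⟩ := exists_data φ hw
  obtain ⟨h1, h2⟩ := hab α β hαβ
    (fun x y hxy => by
      have := hφ' (.v x) (.v y) (by simpa using hxy)
      rw [hα, hα] at this
      exact this)
    (fun x y hxy => by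
      have := hφ' (.u x) (.v y) (by simpa using hxy)
      rw [hα, hβ] at this
      exact this)
    (fun x => by
      have := hφ' (.u x) .w (by simp)
      rw [hβ, hw] at this
      exact this)
  intro p
  cases p with
  | v x => rw [hα, h1]
  | u x => rw [hβ, h2]
  | w => exact hw

end Pool.Agent.Lib.MP_da4765_co
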