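import Pool.Agent.Lib.MP_da4765_co.Palettes

/-!
# Windmills of half graphs
-/

namespace Pool.Agent.Lib.MP_da4765_co

/-- The vertices of the windmill: the root and, for every blade `σ`, the vertices `a σ i` and
`b σ j`. -/
inductive WVert (I : Type) (h : ℕ) where
  | r : WVert I h
  | a (σ : I) (i : Fin h) : WVert I h
  | b (σ : I) (j : Fin h) : WVert I h

/-- Adjacency in the windmill of half graphs. -/
def WAdj (I : Type) (h : ℕ) : WVert I h → WVert I h → Prop
  | .r, .a _ _ => True
  | .a _ _, .r => True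
  | .a σ i, .b τ j => σ = τ ∧ i ≤ j
  | .b τ j, .a σ i => σ = τ ∧ i ≤ j
  | _, _ => False

/-- The windmill: the root is joined to all `a σ i`, and `a σ i` to `b σ j` for `i ≤ j`. -/
def windmill (I : Type) (h : ℕ) : SimpleGraph (WVert I h) where
  Adj := WAdj I h
  symm := ⟨by
    intro p q hpq
    cases p <;> cases q <;> simp_all [WAdj]⟩
  loopless := ⟨by
    intro p hp
    cases p <;> simp_all [WAdj]⟩

section basic

variable {I : Type} {h : ℕ}

@[simp] lemma w_ra (σ : I) (i : Fin h) : (windmill I h).Adj .r (.a σ i) := trivial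
@[simp] lemma w_ar (σ : I) (i : Fin h) : (windmill I h).Adj (.a σ i) .r := trivial
@[simp] lemma w_ab (σ τ : I) (i j : Fin h) :
    (windmill I h).Adj (.a σ i) (.b τ j) ↔ σ = τ ∧ i ≤ j := Iff.rfl
@[simp] lemma w_ba (σ τ : I) (i j : Fin h) :
    (windmill I h).Adj (.b τ j) (.a σ i) ↔ σ = τ ∧ i ≤ j := Iff.rfl
@[simp] lemma w_rr : ¬ (windmill I h).Adj .r .r := fun h => h
@[simp] lemma w_rb (σ : I) (i : Fin h) : ¬ (windmill I h).Adj .r (.b σ i) := fun h => h
@[simp] lemma w_br (σ : I) (i : Fin h) : ¬ (windmill I h).Adj (.b σ i) .r := fun h => h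
@[simp] lemma w_aa (σ τ : I) (i j : Fin h) : ¬ (windmill I h).Adj (.a σ i) (.a τ j) :=
  fun h => h
@[simp] lemma w_bb (σ τ : I) (i j : Fin h) : ¬ (windmill I h).Adj (.b σ i) (.b τ j) :=
  fun h => h

/-- The vertex type of the windmill as an option type. -/
def wvertEquiv (I : Type) (h : ℕ) : WVert I h ≃ Option ((I × Fin h) ⊕ (I × Fin h)) where
  toFun p := match p with
    | .r => none
    | .a σ i => some (Sum.inl (σ, i))
    | .b σ i => some (Sum.inr (σ, i))
  invFun q := match q with
    | none => .r
    | some (Sum.inl (σ, i)) => .a σ i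
    | some (Sum.inr (σ, i)) => .b σ i
  left_inv p := by cases p <;> rfl
  right_inv q := by rcases q with _ | (x | x) <;> rfl

noncomputable instance [Fintype I] : Fintype (WVert I h) :=
  Fintype.ofEquiv _ (wvertEquiv I h).symm

lemma windmill_connected (hh : 0 < h) : (windmill I h).Connected := by
  have hr : ∀ p, (windmill I h).Reachable .r p := by
    intro p
    cases p with
    | r => exact SimpleGraph.Reachable.refl _
    | a σ i => exact (w_ra σ i).reachable
    | b σ j =>
      have h1 : (windmill I h).Adj (.a σ ⟨0, hh⟩) (.b σ j) :=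
        (w_ab σ σ ⟨0, hh⟩ j).2 ⟨rfl, Fin.mk_le_of_le_val (Nat.zero_le _)⟩
      exact (w_ra σ ⟨0, hh⟩).reachable.trans h1.reachable
  have : Nonempty (WVert I h) := ⟨.r⟩
  exact ⟨fun p q => (hr p).symm.trans (hr q)⟩

lemma windmill_card [Fintype I] [Nonempty I] (hh : 0 < h) : 3 ≤ Fintype.card (WVert I h) := by
  rw [Fintype.card_congr (wvertEquiv I h), Fintype.card_option, Fintype.card_sum,
    Fintype.card_prod, Fintype.card_fin]
  have h1 : 0 < Fintype.card I := Fintype.card_pos
  have h2 : 0 < Fintype.card I * h := Nat.mul_pos h1 hh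
  omega

lemma windmill_colorable (k : ℕ) (hk : 2 ≤ k) : (windmill I h).Colorable k := by
  have h2 : (windmill I h).Colorable 2 := by
    refine ⟨SimpleGraph.Coloring.mk (fun p => match p with
      | .r => (0 : Fin 2)
      | .a _ _ => 1
      | .b _ _ => 0) ?_⟩
    intro p q hpq
    cases p <;> cases q <;> simp_all
  exact h2.mono hk

lemma windmill_twinFree (hI : Nontrivial I) (hh : 0 < h) (x y : WVert I h)
    (hxy : Twin (windmill I h) x y) : x = y := by
  obtain ⟨s, t, hst⟩ := hI
  have hlast : ∀ i : Fin h, i ≤ ⟨h - 1, by omega⟩ := fun i => by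
    rw [Fin.le_def]; simp only; omega
  have hzero : ∀ i : Fin h, (⟨0, hh⟩ : Fin h) ≤ i := fun i => by
    rw [Fin.le_def]; exact Nat.zero_le _
  cases x with
  | r =>
    cases y with
    | r => rfl
    | a σ i => exact absurd ((hxy .r).2 (by simp)) (by simp)
    | b σ j =>
      have h1 := ((hxy (.a s ⟨0, hh⟩)).1 (by simp))
      have h2 := ((hxy (.a t ⟨0, hh⟩)).1 (by simp))
      rw [w_ba] at h1 h2
      exact absurd (h1.1.trans h2.1.symm) hst
  | a σ i =>
    cases y with
    | r => exact absurd ((hxy .r).1 (by simp)) (by simp)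
    | a τ j =>
      have h1 := (hxy (.b σ ⟨h - 1, by omega⟩)).1 (by simpa using hlast i)
      rw [w_ab] at h1
      obtain rfl := h1.1
      have h2 := (hxy (.b τ i)).1 (by simp)
      have h3 := (hxy (.b τ j)).2 (by simp)
      rw [w_ab] at h2 h3
      rw [le_antisymm h2.2 h3.2]
    | b τ j => exact absurd ((hxy .r).1 (by simp)) (by simp)
  | b σ i =>
    cases y with
    | r =>
      have h1 := ((hxy (.a s ⟨0, hh⟩)).2 (by simp))
      have h2 := ((hxy (.a t ⟨0, hh⟩)).2 (by simp))
      rw [w_ba] at h1 h2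
      exact absurd (h1.1.trans h2.1.symm) hst
    | a τ j => exact absurd ((hxy .r).2 (by simp)) (by simp)
    | b τ j =>
      have h1 := (hxy (.a σ ⟨0, hh⟩)).1 (by simpa using hzero i)
      rw [w_ba] at h1
      obtain rfl := h1.1
      have h2 := (hxy (.a σ i)).1 (by simp)
      have h3 := (hxy (.a σ j)).2 (by simp)
      rw [w_ba] at h2 h3
      rw [le_antisymm h3.2 h2.2]

/-- Half graphs are rigid. -/
lemma half_rigid {α β : Fin h → Fin h} (hα : Function.Injective α) (hβ : Function.Injective β)
    (hab : ∀ i j, i ≤ j ↔ α i ≤ β j) : (∀ i, α i = i) ∧ (∀ j, β j = j) := by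
  have hα' : Function.Bijective α := Finite.injective_iff_bijective.1 hα
  have hβ' : Function.Bijective β := Finite.injective_iff_bijective.1 hβ
  constructor
  · intro i
    have h1 : (Finset.Ici i).image β = Finset.Ici (α i) := by
      ext j
      simp only [Finset.mem_image, Finset.mem_Ici]
      constructor
      · rintro ⟨t, ht, rfl⟩; exact (hab i t).1 ht
      · intro hj
        obtain ⟨t, rfl⟩ := hβ'.2 j
        exact ⟨t, (hab i t).2 hj, rfl⟩
    have h2 := congrArg Finset.card h1
    rw [Finset.card_image_of_injective _ hβ, Fin.card_Ici, Fin.card_Ici] at h2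
    apply Fin.ext
    have := i.2
    have := (α i).2
    omega
  · intro j
    have h1 : (Finset.Iic j).image α = Finset.Iic (β j) := by
      ext i
      simp only [Finset.mem_image, Finset.mem_Iic]
      constructor
      · rintro ⟨t, ht, rfl⟩; exact (hab t j).1 ht
      · intro hi
        obtain ⟨t, rfl⟩ := hα'.2 i
        exact ⟨t, (hab t j).2 hi, rfl⟩
    have h2 := congrArg Finset.card h1
    rw [Finset.card_image_of_injective _ hα, Fin.card_Iic, Fin.card_Iic] at h2
    apply Fin.ext
    omega

/-- The automorphisms of the windmill permute the blades. -/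
lemma windmill_aut [Fintype I] (hI : 2 ≤ Fintype.card I) (hh : 2 ≤ h)
    (φ : windmill I h ≃g windmill I h) : ∃ τ : I → I, φ .r = .r ∧
      (∀ σ i, φ (.a σ i) = .a (τ σ) i) ∧ (∀ σ j, φ (.b σ j) = .b (τ σ) j) := by
  classical
  have hadj : ∀ p q, (windmill I h).Adj (φ p) (φ q) ↔ (windmill I h).Adj p q :=
    fun p q => φ.map_adj_iff
  have hh0 : 0 < h := by omega
  -- the root is fixed
  have hr : φ .r = .r := by
    cases hφ : φ .r with
    | r => rfl
    | a σ i =>
      exfalso
      have h1 : ∀ p : I × Fin h, ∃ t : Option (Fin h), φ (.a p.1 p.2) =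
          (match t with | none => .r | some j => .b σ j) := by
        intro p
        have h2 := (hadj .r (.a p.1 p.2)).2 (by simp)
        rw [hφ] at h2
        cases hq : φ (.a p.1 p.2) with
        | r => exact ⟨none, rfl⟩
        | a τ j => rw [hq] at h2; simp at h2
        | b τ j =>
          rw [hq] at h2
          rw [w_ab] at h2
          exact ⟨some j, by rw [h2.1]⟩
      choose F hF using h1
      have hinj : Function.Injective F := by
        rintro ⟨p1, p2⟩ ⟨q1, q2⟩ hpq
        have h3 := hF (p1, p2)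
        rw [hpq, ← hF (q1, q2)] at h3
        have h4 := φ.injective h3
        cases h4
        rfl
      have h5 := Fintype.card_le_of_injective F hinj
      rw [Fintype.card_prod, Fintype.card_option, Fintype.card_fin] at h5
      nlinarith
    | b σ i =>
      exfalso
      have h1 : ∀ p : I × Fin h, ∃ t : Fin h, φ (.a p.1 p.2) = .a σ t := by
        intro p
        have h2 := (hadj .r (.a p.1 p.2)).2 (by simp)
        rw [hφ] at h2
        cases hq : φ (.a p.1 p.2) with
        | r => rw [hq] at h2; simp at h2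
        | a τ j =>
          rw [hq] at h2
          rw [w_ba] at h2
          exact ⟨j, by rw [h2.1]⟩
        | b τ j => rw [hq] at h2; simp at h2
      choose F hF using h1
      have hinj : Function.Injective F := by
        rintro ⟨p1, p2⟩ ⟨q1, q2⟩ hpq
        have h3 := hF (p1, p2)
        rw [hpq, ← hF (q1, q2)] at h3
        have h4 := φ.injective h3
        cases h4
        rfl
      have h5 := Fintype.card_le_of_injective F hinj
      rw [Fintype.card_prod, Fintype.card_fin] at h5
      nlinarith
  have ha : ∀ σ i, ∃ τ j, φ (.a σ i) = .a τ j := by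
    intro σ i
    have h2 := (hadj .r (.a σ i)).2 (by simp)
    rw [hr] at h2
    cases hq : φ (.a σ i) with
    | r => rw [hq] at h2; simp at h2
    | a τ j => exact ⟨τ, j, rfl⟩
    | b τ j => rw [hq] at h2; simp at h2
  have hb : ∀ σ i, ∃ τ j, φ (.b σ i) = .b τ j := by
    intro σ i
    have h2 : ¬ (windmill I h).Adj (φ .r) (φ (.b σ i)) := by rw [hadj]; simp
    rw [hr] at h2
    cases hq : φ (.b σ i) with
    | r => exact absurd (φ.injective (hq.trans hr.symm)) (by simp)
    | a τ j => rw [hq] at h2; simp at h2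
    | b τ j => exact ⟨τ, j, rfl⟩
  choose τb jb hb using hb
  choose τa ja ha using ha
  have hlast : ∀ i : Fin h, i ≤ ⟨h - 1, by omega⟩ := fun i => by
    rw [Fin.le_def]; simp only; omega
  have hzero : ∀ i : Fin h, (⟨0, hh0⟩ : Fin h) ≤ i := fun i => by
    rw [Fin.le_def]; exact Nat.zero_le _
  let τ : I → I := fun σ => τb σ ⟨h - 1, by omega⟩
  have hτa : ∀ σ i, τa σ i = τ σ := by
    intro σ i
    have h1 := (hadj (.a σ i) (.b σ ⟨h - 1, by omega⟩)).2 (by simpa using hlast i)
    rw [ha, hb, w_ab] at h1
    exact h1.1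
  have hτb : ∀ σ i, τb σ i = τ σ := by
    intro σ i
    have h1 := (hadj (.a σ ⟨0, hh0⟩) (.b σ i)).2 (by simpa using hzero i)
    rw [ha, hb, w_ab] at h1
    rw [← h1.1, hτa]
  have key : ∀ σ, (∀ i, ja σ i = i) ∧ (∀ j, jb σ j = j) := by
    intro σ
    apply half_rigid
    · intro i j hij
      have h1 : φ (.a σ i) = φ (.a σ j) := by rw [ha, ha, hτa, hτa, hij]
      have h2 := φ.injective h1
      cases h2
      rfl
    · intro i j hij
      have h1 : φ (.b σ i) = φ (.b σ j) := by rw [hb, hb, hτb, hτb, hij]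
      have h2 := φ.injective h1
      cases h2
      rfl
    · intro i j
      have h1 := hadj (.a σ i) (.b σ j)
      rw [ha, hb, w_ab, w_ab, hτa, hτb] at h1
      simpa using h1.symm
  refine ⟨τ, hr, fun σ i => ?_, fun σ j => ?_⟩
  · rw [ha, hτa, (key σ).1]
  · rw [hb, hτb, (key σ).2]

end basic

end Pool.Agent.Lib.MP_da4765_co
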